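import Pool.Agent.MP_826def_gt.MU.Api

/-!
Statements of the formal properties of complex cobordism and of the geometric theorems.
-/

namespace Pool.Agent.MP_826def_gt.MU

open Set Topology

noncomputable section

/-! ### Projective spaces and their bundles -/

/-- The orthogonal projection onto the line through `u`. -/
def pj {N : ℕ} (u : Fin N → ℂ) : Fin N → Fin N → ℂ :=
  fun i j => u i * (starRingEnd ℂ) (u j) / ((∑ k, Complex.normSq (u k) : ℝ) : ℂ)

/-- The lines in the span of the first `m` basis vectors of `ℂ ^ N`. -/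
def CP (N m : ℕ) : Type :=
  {q : Fin N → Fin N → ℂ // ∃ u : Fin N → ℂ, ‖u‖ = 1 ∧ (∀ i : Fin N, m ≤ i → u i = 0) ∧ pj u = q}

instance (N m : ℕ) : MetricSpace (CP N m) := Subtype.metricSpace

theorem nsq_pos {N : ℕ} {u : Fin N → ℂ} (hu : u ≠ 0) : 0 < ∑ k, Complex.normSq (u k) := by
  obtain ⟨i, hi⟩ := Function.ne_iff.1 hu
  exact Finset.sum_pos' (fun _ _ => Complex.normSq_nonneg _)
    ⟨i, Finset.mem_univ i, Complex.normSq_pos.2 hi⟩

theorem pj_cont {N : ℕ} : ContinuousOn (pj (N := N)) {u | u ≠ 0} := by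
  refine continuousOn_pi.2 fun i => continuousOn_pi.2 fun j => ContinuousOn.div (by fun_prop) ?_
    fun u hu => Complex.ofReal_ne_zero.2 (nsq_pos hu).ne'
  exact (Complex.continuous_ofReal.comp (continuous_finsetSum _ fun k _ =>
    Complex.continuous_normSq.comp (continuous_apply k))).continuousOn

instance (N m : ℕ) : CompactSpace (CP N m) := by
  have h1 : IsCompact {u : Fin N → ℂ | ‖u‖ = 1 ∧ ∀ i : Fin N, m ≤ i → u i = 0} := by
    refine (isCompact_sphere (0 : Fin N → ℂ) 1).of_isClosed_subset ?_ fun u hu => by simpa using hu.1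
    refine (isClosed_eq continuous_norm continuous_const).inter ?_
    have : IsClosed (⋂ i : Fin N, ⋂ _ : m ≤ (i : ℕ), {u : Fin N → ℂ | u i = 0}) :=
      isClosed_iInter fun i => isClosed_iInter fun _ =>
        isClosed_eq (continuous_apply i) continuous_const
    exact (congrArg IsClosed (Set.ext fun u => mem_iInter₂)).mp this
  have h2 := h1.image_of_continuousOn (pj_cont.mono fun u hu e => by
    have := hu.1
    rw [e, norm_zero] at this
    exact zero_ne_one this)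
  refine isCompact_iff_compactSpace.1 (?_ : IsCompact {q : Fin N → Fin N → ℂ | _})
  refine (congrArg IsCompact (Set.ext fun q => ?_)).mp h2
  exact ⟨fun ⟨u, a, b⟩ => ⟨u, a.1, a.2, b⟩, fun ⟨u, a, b, c⟩ => ⟨u, ⟨a, b⟩, c⟩⟩

/-- A matrix as an operator. -/
def mv {N : ℕ} (q : Fin N → Fin N → ℂ) : (Fin N → ℂ) →L[ℂ] Fin N → ℂ :=
  LinearMap.toContinuousLinearMap (Matrix.toLin' (Matrix.of q))

theorem mv_apply {N : ℕ} (q : Fin N → Fin N → ℂ) (y : Fin N → ℂ) (i : Fin N) :
    mv q y i = ∑ j, q i j * y j := rfl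

theorem mv_cont {N : ℕ} : Continuous (mv (N := N)) :=
  continuous_clm_apply.2 fun y => continuous_pi fun i => by
    simp only [mv_apply]
    fun_prop

theorem mv_pj {N : ℕ} (u y : Fin N → ℂ) : mv (pj u) y =
    ((∑ j, (starRingEnd ℂ) (u j) * y j) / ((∑ k, Complex.normSq (u k) : ℝ) : ℂ)) • u := by
  funext i
  rw [mv_apply, Pi.smul_apply, smul_eq_mul, Finset.sum_div, Finset.sum_mul]
  exact Finset.sum_congr rfl fun j _ => by rw [pj]; ring

theorem mv_pj_self {N : ℕ} {u : Fin N → ℂ} (hu : u ≠ 0) : mv (pj u) u = u := by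
  have : ∑ j, (starRingEnd ℂ) (u j) * u j = ((∑ k, Complex.normSq (u k) : ℝ) : ℂ) := by
    rw [Complex.ofReal_sum]
    exact Finset.sum_congr rfl fun j _ => Complex.normSq_eq_conj_mul_self.symm
  rw [mv_pj, this, div_self (Complex.ofReal_ne_zero.2 (nsq_pos hu).ne'), one_smul]

theorem CP.idem {N m : ℕ} (q : CP N m) : mv q.1 ∘L mv q.1 = mv q.1 := by
  obtain ⟨u, hu, -, e⟩ := q.2
  have h0 : u ≠ 0 := fun e => by rw [e, norm_zero] at hu; exact zero_ne_one hu
  refine ContinuousLinearMap.ext fun y => ?_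
  rw [ContinuousLinearMap.comp_apply, ← e]
  conv_lhs => rw [mv_pj u y, map_smul, mv_pj_self h0, ← mv_pj]

/-- The tautological line bundle. -/
abbrev taut (N m : ℕ) : Bun (CP N m) :=
  ⟨FD.std N, ⟨fun q => mv q.1, mv_cont.comp continuous_subtype_val⟩, CP.idem⟩

/-- The operator `M ↦ A M Bᵀ` on matrices. -/
def mv2 {N : ℕ} (A B : (Fin N → ℂ) →L[ℂ] Fin N → ℂ) :
    (Fin N → Fin N → ℂ) →L[ℂ] Fin N → Fin N → ℂ :=
  ContinuousLinearMap.pi fun i => B ∘L ContinuousLinearMap.pi fun j =>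
    ContinuousLinearMap.proj i ∘L A ∘L ContinuousLinearMap.pi fun k =>
      (ContinuousLinearMap.proj j : (Fin N → ℂ) →L[ℂ] ℂ) ∘L ContinuousLinearMap.proj k

theorem mv2_apply {N : ℕ} (A B : (Fin N → ℂ) →L[ℂ] Fin N → ℂ) (M : Fin N → Fin N → ℂ) (i : Fin N) :
    mv2 A B M i = B fun j => A (fun k => M k j) i := rfl

theorem mv2_mv {N : ℕ} (q q' M : Fin N → Fin N → ℂ) (i j : Fin N) :
    mv2 (mv q) (mv q') M i j = ∑ l, q' j l * ∑ k, q i k * M k l := rfl

theorem mv2_idem {N : ℕ} {q q' : Fin N → Fin N → ℂ} (hq : mv q ∘L mv q = mv q)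
    (hq' : mv q' ∘L mv q' = mv q') : mv2 (mv q) (mv q') ∘L mv2 (mv q) (mv q') = mv2 (mv q) (mv q') := by
  have k : ∀ {q : Fin N → Fin N → ℂ}, mv q ∘L mv q = mv q → Matrix.of q * Matrix.of q = Matrix.of q :=
    fun {q} hq => Matrix.toLin'.injective (by
      rw [Matrix.toLin'_mul]
      exact congrArg (fun A : (Fin N → ℂ) →L[ℂ] Fin N → ℂ => A.toLinearMap) hq)
  have e : ∀ M : Fin N → Fin N → ℂ, Matrix.of (mv2 (mv q) (mv q') M) =
      Matrix.of q * Matrix.of M * (Matrix.of q').transpose := fun M => by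
    ext i j
    rw [Matrix.of_apply, mv2_mv, Matrix.mul_apply]
    exact Finset.sum_congr rfl fun l _ => mul_comm _ _
  refine ContinuousLinearMap.ext fun M => Matrix.of.injective ?_
  rw [ContinuousLinearMap.comp_apply, e, e, ← Matrix.mul_assoc, ← Matrix.mul_assoc, k hq,
    Matrix.mul_assoc, ← Matrix.transpose_mul, k hq']

/-- The tensor product of the lines given by two maps to a projective space, inside matrices. -/
abbrev tm {X : Type} [TopologicalSpace X] {N m : ℕ} (f g : C(X, CP N m)) : Bun X :=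
  ⟨FD.mat N, ⟨fun x => mv2 (mv (f x).1) (mv (g x).1), continuous_clm_apply.2 fun M =>
    continuous_pi fun i => continuous_pi fun j => by
      have h1 := continuous_subtype_val.comp f.continuous
      have h2 := continuous_subtype_val.comp g.continuous
      simp only [mv2_mv]
      exact continuous_finsetSum _ fun l _ => ((continuous_apply_apply j l).comp h2).mul
        (continuous_finsetSum _ fun k _ => ((continuous_apply_apply i k).comp h1).mul
          continuous_const)⟩, fun x => mv2_idem (f x).idem (g x).idem⟩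

/-- The inclusion of projective spaces. -/
def CP.incl (N : ℕ) {m m' : ℕ} (hm : m ≤ m') : C(CP N m, CP N m') :=
  ⟨fun q => ⟨q.1, q.2.imp fun _ hu => ⟨hu.1, fun i hi => hu.2.1 i (hm.trans hi), hu.2.2⟩⟩,
    continuous_subtype_val.subtype_mk _⟩

section

variable {X Y U E : Type} [TopologicalSpace X] [TopologicalSpace Y] [TopologicalSpace U]
  [TopologicalSpace E]

/-- A closed subspace and its open complement. -/
structure Pair (i : C(Y, X)) (j : C(U, X)) : Prop where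
  cl : IsClosedEmbedding i
  op : IsOpenEmbedding j
  co : range j = (range i)ᶜ

/-- `E` is the total space of `ξ`. -/
def IsTot (ξ : Bun X) (π : C(E, X)) (t : C(E, ξ.W)) : Prop :=
  IsEmbedding (fun e => (π e, t e)) ∧ range (fun e => (π e, t e)) = {z | ξ.p z.1 z.2 = z.2}

/-- `E` is the sphere bundle of `ξ`. -/
def IsSph (ξ : Bun X) (π : C(E, X)) (t : C(E, ξ.W)) : Prop :=
  IsEmbedding (fun e => (π e, t e)) ∧
    range (fun e => (π e, t e)) = {z | ξ.p z.1 z.2 = z.2 ∧ ‖z.2‖ = 1}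

/-- `E` is the projective bundle of `ξ`. -/
def IsPr (ξ : Bun X) {N : ℕ} (φ : FD.std N ≃L[ℂ] ξ.W) (π : C(E, X)) (q : C(E, CP N N)) : Prop :=
  IsEmbedding (fun e => (π e, q e)) ∧
    range (fun e => (π e, q e)) = {z | ∀ y, ξ.p z.1 (φ (mv z.2.1 y)) = φ (mv z.2.1 y)}

end

/-! ### Facts on bundles -/

structure S_bun : Prop where
  rk_taut : ∀ N m, (taut N m).Rk 1
  rk_tm : ∀ {X : Type} [TopologicalSpace X] {N m : ℕ} (f g : C(X, CP N m)), (tm f g).Rk 1
  tens_tm : ∀ {X : Type} [TopologicalSpace X] {N m : ℕ} (f g : C(X, CP N m)),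
    ((taut N m).pull f).Tens ((taut N m).pull g) (tm f g)
  rk_triv : ∀ (X : Type) [TopologicalSpace X] (E : FD), (Bun.triv X E).Rk E.dim
  rk_hom : ∀ {X : Type} [TopologicalSpace X] (ξ η : Bun X) (k l : ℕ), ξ.Rk k → η.Rk l →
    (ξ.hom η).Rk (k * l)
  tens_tens : ∀ {X : Type} [TopologicalSpace X] (ξ η : Bun X), ξ.Tens η (ξ.tens η)
  tens_hom : ∀ {X : Type} [TopologicalSpace X] (ξ η : Bun X), ξ.Rk 1 → (ξ.hom η).Tens ξ η
  iso_of : ∀ {X : Type} [TopologicalSpace X] (ξ η : Bun X) (u : C(X, ξ.W →L[ℂ] η.W)),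
    (∀ x, rk (ξ.p x) = rk (η.p x)) →
    (∀ x w, ξ.p x w = w → η.p x (u x w) = u x w ∧ (u x w = 0 → w = 0)) →
    ∃ v : C(X, η.W →L[ℂ] ξ.W), ∀ x, v x ∘L (u x ∘L ξ.p x) = ξ.p x ∧ (u x ∘L ξ.p x) ∘L v x = η.p x
  tens_iso : ∀ {X : Type} [TopologicalSpace X] (L₁ L₂ L₃ L₄ : Bun X), L₁.Rk 1 → L₂.Rk 1 → L₃.Rk 1 →
    L₄.Rk 1 → L₁.Tens L₂ L₃ → L₁.Tens L₂ L₄ → L₃.Iso L₄
  tens_congr : ∀ {X : Type} [TopologicalSpace X] (L₁ L₂ L₃ M₁ M₂ M₃ : Bun X), L₁.Iso M₁ →
    L₂.Iso M₂ → L₃.Iso M₃ → L₁.Tens L₂ L₃ → M₁.Tens M₂ M₃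
  tens_assoc : ∀ {X : Type} [TopologicalSpace X] (L₁ L₂ L₃ : Bun X), L₁.Rk 1 → L₂.Rk 1 → L₃.Rk 1 →
    L₁.Tens (L₂.tens L₃) ((L₁.tens L₂).tens L₃)
  classify : ∀ {X : Type} [TopologicalSpace X] (L : Bun X) (N : ℕ), L.Rk 1 → L.W.dim ≤ N →
    ∃ f : C(X, CP N N), L.Iso ((taut N N).pull f)
  split_triv : ∀ (X : Type) [TopologicalSpace X] (E : FD),
    (Bun.triv X E).Split fun _ : Fin E.dim => Bun.triv X FD.C
  split_hom : ∀ {X : Type} [TopologicalSpace X] (η ξ : Bun X) {k : ℕ} (L : Fin k → Bun X),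
    ξ.Split L → (η.hom ξ).Split fun i => η.hom (L i)
  split_sum : ∀ {X : Type} [TopologicalSpace X] (ξ η : Bun X) {k l : ℕ} (L : Fin k → Bun X)
    (M : Fin l → Bun X), ξ.Split L → η.Split M → (ξ.sum η).Split (Fin.append L M)
  split_iso : ∀ {X : Type} [TopologicalSpace X] (ξ η : Bun X) {k : ℕ} (L : Fin k → Bun X),
    ξ.Iso η → ξ.Split L → η.Split L
  split_succ : ∀ {X : Type} [TopologicalSpace X] (ξ : Bun X) {k : ℕ} (L : Fin (k + 1) → Bun X),
    ξ.Split L → ∃ η : Bun X, η.Split (fun i => L i.succ) ∧ ξ.Iso ((L 0).sum η)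
  loc_triv : ∀ {X : Type} [TopologicalSpace X] (ξ : Bun X) (k : ℕ), ξ.Rk k →
    ∃ (n : ℕ) (G : Fin n → Set X), (∀ i, IsOpen (G i)) ∧ ⋃ i, G i = univ ∧
      ∀ i, (ξ.pull ⟨Subtype.val, continuous_subtype_val⟩).Iso (Bun.triv (G i) (FD.std k))

variable [C : Fact Core]

/-! ### Formal properties -/

structure S_fun : Prop where
  htpy : ∀ {X X' : Type} [TopologicalSpace X] [TopologicalSpace X'] (F : C(X' × unitInterval, X))
    (f g : C(X', X)), IsProperMap F → (∀ x, F (x, 0) = f x) → (∀ x, F (x, 1) = g x) →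
    ∀ y, pull f y = pull g y
  push_comp : ∀ {X U U' : Type} [TopologicalSpace X] [TopologicalSpace U] [TopologicalSpace U']
    (j : C(U, X)) (k : C(U', U)), IsOpenEmbedding j → IsOpenEmbedding k →
    ∀ y, push j (push k y) = push (j.comp k) y
  push_homeo : ∀ {X U : Type} [TopologicalSpace X] [TopologicalSpace U] (j : C(U, X)) (f : C(X, U)),
    (∀ u, f (j u) = u) → (∀ x, j (f x) = x) → ∀ y, push j y = pull f y
  push_res : ∀ {X U : Type} [TopologicalSpace X] [TopologicalSpace U] (j : C(U, X)) (c : Raw X),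
    IsOpenEmbedding j → c.Good → (∀ z ∈ c.Z, z.1 ∈ range j) → push j (cls (c.pull j)) = cls c
  bc : ∀ {X X' U U' : Type} [TopologicalSpace X] [TopologicalSpace X'] [TopologicalSpace U]
    [TopologicalSpace U'] (f : C(X', X)) (j : C(U, X)) (j' : C(U', X')) (f' : C(U', U)),
    IsProperMap f → IsOpenEmbedding j → IsOpenEmbedding j' → (∀ u, j (f' u) = f (j' u)) →
    (∀ x, f x ∈ range j → x ∈ range j') →
    IsProperMap f' ∧ ∀ y, pull f (push j y) = push j' (pull f' y)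
  bcT : ∀ {X X' U U' : Type} [TopologicalSpace X] [TopologicalSpace X'] [TopologicalSpace U]
    [TopologicalSpace U'] (g : C(X', X)) (ξ : Bun X') (σ : C(X', ξ.W)) (j : C(U, X))
    (j' : C(U', X')) (g' : C(U', U)), Tw g ξ σ → IsOpenEmbedding j → IsOpenEmbedding j' →
    (∀ u, j (g' u) = g (j' u)) → (∀ x, σ x = 0 → g x ∈ range j → x ∈ range j') →
    Tw g' (ξ.pull j') (σ.comp j') ∧
      ∀ y, twist g ξ σ (push j y) = push j' (twist g' (ξ.pull j') (σ.comp j') y)
  bcP : ∀ {X U K K' Y Y' : Type} [TopologicalSpace X] [TopologicalSpace U] [TopologicalSpace K]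
    [TopologicalSpace K'] [TopologicalSpace Y] [TopologicalSpace Y'] (f : C(X, K)) (g : C(X, Y))
    (j : C(U, X)) (k : C(K', K)) (l : C(Y', Y)) (f' : C(U, K')) (g' : C(U, Y')), Pr f g →
    IsOpenEmbedding j → IsOpenEmbedding k → IsOpenEmbedding l → (∀ u, k (f' u) = f (j u)) →
    (∀ u, l (g' u) = g (j u)) → (∀ x, f x ∈ range k → g x ∈ range l → x ∈ range j) →
    Pr f' g' ∧ ∀ a y, prod f g (push k a) (push l y) = push j (prod f' g' a y)
  empty : ∀ {X : Type} [TopologicalSpace X] [IsEmpty X] (x : h X), x = 0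

structure S_tw : Prop where
  pull_twist : ∀ {X X' X'' : Type} [TopologicalSpace X] [TopologicalSpace X'] [TopologicalSpace X'']
    (g : C(X', X)) (ξ : Bun X') (σ : C(X', ξ.W)) (φ : C(X'', X')), Tw g ξ σ → IsProperMap φ →
    Tw (g.comp φ) (ξ.pull φ) (σ.comp φ) ∧
      ∀ y, pull φ (twist g ξ σ y) = twist (g.comp φ) (ξ.pull φ) (σ.comp φ) y
  twist_pull : ∀ {X X' X'' : Type} [TopologicalSpace X] [TopologicalSpace X'] [TopologicalSpace X'']
    (g : C(X'', X')) (ξ : Bun X'') (σ : C(X'', ξ.W)) (f : C(X', X)), Tw g ξ σ → IsProperMap f →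
    Tw (f.comp g) ξ σ ∧ ∀ y, twist g ξ σ (pull f y) = twist (f.comp g) ξ σ y
  twist_twist : ∀ {X X' X'' : Type} [TopologicalSpace X] [TopologicalSpace X'] [TopologicalSpace X'']
    (g : C(X'', X')) (ξ : Bun X'') (σ : C(X'', ξ.W)) (g' : C(X', X)) (ξ' : Bun X')
    (σ' : C(X', ξ'.W)), Tw g ξ σ → Tw g' ξ' σ' →
    Tw (g'.comp g) ((ξ'.pull g).sum ξ) ((σ'.comp g).prodMk σ) ∧ ∀ y, twist g ξ σ (twist g' ξ' σ' y) =
      twist (g'.comp g) ((ξ'.pull g).sum ξ) ((σ'.comp g).prodMk σ) y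
  iso : ∀ {X X' : Type} [TopologicalSpace X] [TopologicalSpace X'] (g : C(X', X)) (ξ η : Bun X')
    (σ : C(X', ξ.W)) (τ : C(X', η.W)) (u : C(X', ξ.W →L[ℂ] η.W)) (v : C(X', η.W →L[ℂ] ξ.W)),
    Tw g ξ σ → (∀ x, v x ∘L u x = ξ.p x ∧ u x ∘L v x = η.p x ∧ u x (σ x) = τ x) →
    Tw g η τ ∧ ∀ y, twist g ξ σ y = twist g η τ y
  htpy : ∀ {X X' : Type} [TopologicalSpace X] [TopologicalSpace X'] (G : C(X' × unitInterval, X))
    (ξ : Bun X') (S : C(X' × unitInterval, ξ.W)) (g g' : C(X', X)) (σ σ' : C(X', ξ.W)),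
    Tw G (ξ.pull ContinuousMap.fst) S → (∀ x, G (x, 0) = g x ∧ S (x, 0) = σ x) →
    (∀ x, G (x, 1) = g' x ∧ S (x, 1) = σ' x) → ∀ y, twist g ξ σ y = twist g' ξ σ' y
  empty : ∀ {X X' : Type} [TopologicalSpace X] [TopologicalSpace X'] (g : C(X', X)) (ξ : Bun X')
    (σ : C(X', ξ.W)), (∀ x, σ x ≠ 0) → ∀ y, twist g ξ σ y = 0
  zero : ∀ {X X' : Type} [TopologicalSpace X] [TopologicalSpace X'] (g : C(X', X)) (ξ : Bun X'),
    IsProperMap g → (∀ x, ξ.p x = 0) → ∀ y, twist g ξ 0 y = pull g y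
  prod : ∀ {X X' K Y : Type} [TopologicalSpace X] [TopologicalSpace X'] [TopologicalSpace K]
    [TopologicalSpace Y] [T2Space K] (g : C(X', X)) (ξ : Bun X') (σ : C(X', ξ.W)) (f₁ : C(X, K))
    (f₂ : C(X, Y)), Tw g ξ σ → Pr f₁ f₂ → Tw (f₂.comp g) ξ σ → ∀ a y,
    twist g ξ σ (prod f₁ f₂ a y) =
      prod (f₁.comp g) (ContinuousMap.id X') a (twist (f₂.comp g) ξ σ y)
  tw_id : ∀ {X : Type} [TopologicalSpace X] (ξ : Bun X) (σ : C(X, ξ.W)),
    (∀ x, ξ.p x (σ x) = σ x) → Tw (ContinuousMap.id X) ξ σ ∧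
      ∀ y, twist (ContinuousMap.id X) ξ σ y = eul ξ y

structure S_pv : Prop where
  pull : ∀ {X X' : Type} [TopologicalSpace X] [TopologicalSpace X'] (E : FD) (f : C(X', X)),
    IsProperMap f → ∀ y, pull f (pushV E y) = pushV E (pull (f.prodMap (ContinuousMap.id E)) y)
  push : ∀ {X U : Type} [TopologicalSpace X] [TopologicalSpace U] (E : FD) (j : C(U, X)),
    IsOpenEmbedding j → ∀ y, push j (pushV E y) = pushV E (push (j.prodMap (ContinuousMap.id E)) y)
  twist : ∀ {X X' : Type} [TopologicalSpace X] [TopologicalSpace X'] (E : FD) (g : C(X', X))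
    (ξ : Bun X') (σ : C(X', ξ.W)), Tw g ξ σ →
    Tw (g.prodMap (ContinuousMap.id E)) (ξ.pull ContinuousMap.fst) (σ.comp ContinuousMap.fst) ∧
      ∀ y, twist g ξ σ (pushV E y) = pushV E (twist (g.prodMap (ContinuousMap.id E))
        (ξ.pull ContinuousMap.fst) (σ.comp ContinuousMap.fst) y)
  prod : ∀ {X K Y : Type} [TopologicalSpace X] [TopologicalSpace K] [TopologicalSpace Y] (E : FD)
    (f : C(X, K)) (g : C(X, Y)), Pr f g →
    Pr (f.comp ContinuousMap.fst) (g.prodMap (ContinuousMap.id E)) ∧ ∀ a y,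
      prod f g a (pushV E y) =
        pushV E (prod (f.comp ContinuousMap.fst) (g.prodMap (ContinuousMap.id E)) a y)
  th : ∀ {X : Type} [TopologicalSpace X] (E : FD),
    Tw (ContinuousMap.fst : C(X × E, X)) (Bun.triv _ E) ContinuousMap.snd ∧ ∀ y : h X,
      pushV E (MU.twist ContinuousMap.fst (Bun.triv _ E) ContinuousMap.snd y) = y
  lift : ∀ {X : Type} [TopologicalSpace X] (c : Raw X), c.Good → pushV c.V (cls c.lift) = cls c
  pushV : ∀ {X : Type} [TopologicalSpace X] (E E' : FD) (y : h ((X × E) × E')),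
    pushV E (pushV E' y) = pushV (E.prod E')
      (MU.pull ⟨fun z : X × E × E' => ((z.1, z.2.1), z.2.2), by fun_prop⟩ y)
  iso : ∀ {X : Type} [TopologicalSpace X] (E E' : FD) (e : E' ≃L[ℂ] E) (y : h (X × E)),
    MU.pushV E' (MU.pull ((ContinuousMap.id X).prodMap ⟨e, e.continuous⟩) y) = MU.pushV E y

structure S_deg : Prop where
  proj : ∀ {X : Type} [TopologicalSpace X] (d e : ℤ) (x : h X),
    part d (part e x) = if d = e then part e x else 0
  fin : ∀ {X : Type} [TopologicalSpace X] (x : h X), ∃ S : Finset ℤ,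
    ∑ d ∈ S, part d x = x ∧ ∀ d ∉ S, part d x = 0
  rep : ∀ {X : Type} [TopologicalSpace X] (d : ℤ) (x : h X), IsDeg d x →
    ∃ c : Raw X, c.Good ∧ cls c = x ∧ ∀ z ∈ c.O, (rk (c.p z) : ℤ) = d + c.V.dim
  of_rk : ∀ {X : Type} [TopologicalSpace X] (d : ℤ) (c : Raw X), c.Good →
    (∀ z ∈ c.Z, (rk (c.p z) : ℤ) = d + c.V.dim) → IsDeg d (cls c)
  pull : ∀ {X X' : Type} [TopologicalSpace X] [TopologicalSpace X'] (f : C(X', X)) (d : ℤ) (x : h X),
    part d (pull f x) = pull f (part d x)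
  push : ∀ {X U : Type} [TopologicalSpace X] [TopologicalSpace U] (j : C(U, X)) (d : ℤ) (x : h U),
    part d (push j x) = push j (part d x)
  pushV : ∀ {X : Type} [TopologicalSpace X] (E : FD) (d : ℤ) (x : h (X × E)),
    part d (pushV E x) = pushV E (part (d + E.dim) x)
  twist : ∀ {X X' : Type} [TopologicalSpace X] [TopologicalSpace X'] (g : C(X', X)) (ξ : Bun X')
    (σ : C(X', ξ.W)) (k : ℕ), ξ.Rk k → ∀ (d : ℤ) (x : h X),
    part (d + k) (twist g ξ σ x) = twist g ξ σ (part d x)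
  prod : ∀ {X K Y : Type} [TopologicalSpace X] [TopologicalSpace K] [TopologicalSpace Y]
    (f : C(X, K)) (g : C(X, Y)) (d e : ℤ) (a : h K), IsDeg d a → ∀ y : h Y,
    part (d + e) (prod f g a y) = prod f g a (part e y)
  one : ∀ (K : Type) [TopologicalSpace K] [CompactSpace K] [T2Space K], IsDeg 0 (1 : h K)

/-- Euler classes. -/
structure S_eul : Prop where
  act : ∀ {X K : Type} [TopologicalSpace X] [TopologicalSpace K] [CompactSpace K] [T2Space K]
    (f : C(X, K)) (ξ : Bun K), (∀ y, eul (ξ.pull f) y = act f (eu ξ) y) ∧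
      ∀ y, Heul (ξ.pull f) y = Hact f (eu ξ) y
  pull : ∀ {K K' : Type} [TopologicalSpace K] [CompactSpace K] [T2Space K] [TopologicalSpace K']
    [CompactSpace K'] [T2Space K'] (f : C(K', K)) (ξ : Bun K), pullR f (eu ξ) = eu (ξ.pull f)
  iso : ∀ {K : Type} [TopologicalSpace K] [CompactSpace K] [T2Space K] (ξ η : Bun K), ξ.Iso η →
    eu ξ = eu η
  sum : ∀ {K : Type} [TopologicalSpace K] [CompactSpace K] [T2Space K] (ξ η : Bun K),
    eu (ξ.sum η) = eu ξ * eu η
  split : ∀ {K : Type} [TopologicalSpace K] [CompactSpace K] [T2Space K] (ξ : Bun K) {k : ℕ}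
    (L : Fin k → Bun K), ξ.Split L → eu ξ = ∏ i, eu (L i)
  nz : ∀ {K : Type} [TopologicalSpace K] [CompactSpace K] [T2Space K] {ι : Type} [Fintype ι]
    (L : ι → Bun K) (σ : ∀ i, C(K, (L i).W)), (∀ i x, (L i).p x (σ i x) = σ i x) →
    (∀ x, ∃ i, σ i x ≠ 0) → ∏ i, eu (L i) = 0
  deg : ∀ {K : Type} [TopologicalSpace K] [CompactSpace K] [T2Space K] (ξ : Bun K) (k : ℕ), ξ.Rk k →
    IsDeg k (eu ξ)

/-- Compatibility of the action with the maps. -/
structure S_act : Prop where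
  pull : ∀ {X X' K : Type} [TopologicalSpace X] [TopologicalSpace X'] [TopologicalSpace K]
    [CompactSpace K] [T2Space K] (f : C(X, K)) (φ : C(X', X)) (a : h K),
    (∀ y, pull φ (act f a y) = act (f.comp φ) a (pull φ y)) ∧
      ∀ y, Hpull φ (Hact f a y) = Hact (f.comp φ) a (Hpull φ y)
  push : ∀ {X U K : Type} [TopologicalSpace X] [TopologicalSpace U] [TopologicalSpace K]
    [CompactSpace K] [T2Space K] (f : C(X, K)) (j : C(U, X)) (a : h K),
    (∀ y, push j (act (f.comp j) a y) = act f a (push j y)) ∧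
      ∀ y, Hpush j (Hact (f.comp j) a y) = Hact f a (Hpush j y)
  twist : ∀ {X X' K : Type} [TopologicalSpace X] [TopologicalSpace X'] [TopologicalSpace K]
    [CompactSpace K] [T2Space K] (f : C(X, K)) (g : C(X', X)) (ξ : Bun X') (σ : C(X', ξ.W))
    (a : h K), (∀ y, twist g ξ σ (act f a y) = act (f.comp g) a (twist g ξ σ y)) ∧
      ∀ y, Htwist g ξ σ (Hact f a y) = Hact (f.comp g) a (Htwist g ξ σ y)
  pushV : ∀ {X K : Type} [TopologicalSpace X] [TopologicalSpace K] [CompactSpace K] [T2Space K]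
    (f : C(X, K)) (E : FD) (a : h K) (y : h (X × E)),
    pushV E (act (f.comp ContinuousMap.fst) a y) = act f a (pushV E y)
  base : ∀ {X K K' : Type} [TopologicalSpace X] [TopologicalSpace K] [CompactSpace K] [T2Space K]
    [TopologicalSpace K'] [CompactSpace K'] [T2Space K'] (f : C(X, K')) (g : C(K', K)) (a : h K),
    act f (pullR g a) = act (g.comp f) a ∧ Hact f (pullR g a) = Hact (g.comp f) a
  comm : ∀ {X K K' : Type} [TopologicalSpace X] [TopologicalSpace K] [CompactSpace K] [T2Space K]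
    [TopologicalSpace K'] [CompactSpace K'] [T2Space K'] (f : C(X, K)) (g : C(X, K')) (a : h K)
    (b : h K'), (∀ y, act f a (act g b y) = act g b (act f a y)) ∧
      ∀ y, Hact f a (Hact g b y) = Hact g b (Hact f a y)
  self : ∀ {K K' : Type} [TopologicalSpace K] [CompactSpace K] [T2Space K] [TopologicalSpace K']
    [CompactSpace K'] [T2Space K'] (f : C(K', K)) (a : h K) (y : h K'), act f a y = pullR f a * y
  Hcomp : ∀ {X X' X'' : Type} [TopologicalSpace X] [TopologicalSpace X'] [TopologicalSpace X'']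
    (f : C(X', X)) (g : C(X'', X')), IsProperMap f → IsProperMap g →
    ∀ y, Hpull g (Hpull f y) = Hpull (f.comp g) y
  Hid : ∀ {X : Type} [TopologicalSpace X] (y : H X), Hpull (ContinuousMap.id X) y = y

/-- All formal properties. -/
structure Api : Prop where
  bun : S_bun
  fn : S_fun
  tw : S_tw
  pv : S_pv
  deg : S_deg
  eul : S_eul
  act : S_act

/-! ### Exact sequences -/

/-- The type of families of connecting maps. -/
abbrev DelT : Type 1 :=
  ∀ {X Y U : Type} [TopologicalSpace X] [TopologicalSpace Y] [TopologicalSpace U],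
    C(Y, X) → C(U, X) → H Y →+ H U

structure IsDel (δ : DelT) : Prop where
  exact : ∀ {X Y U : Type} [TopologicalSpace X] [TopologicalSpace Y] [TopologicalSpace U]
    [T2Space X] [LocallyCompactSpace X] (i : C(Y, X)) (j : C(U, X)), Pair i j →
    Function.Exact (Hpush j) (Hpull i) ∧ Function.Exact (Hpull i) (δ i j) ∧
      Function.Exact (δ i j) (Hpush j)
  nat : ∀ {X Y U X' Y' U' : Type} [TopologicalSpace X] [TopologicalSpace Y] [TopologicalSpace U]
    [T2Space X] [LocallyCompactSpace X] [TopologicalSpace X'] [TopologicalSpace Y']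
    [TopologicalSpace U'] [T2Space X'] [LocallyCompactSpace X'] (i : C(Y, X)) (j : C(U, X))
    (i' : C(Y', X')) (j' : C(U', X')) (f : C(X', X)) (fY : C(Y', Y)) (fU : C(U', U)), Pair i j →
    Pair i' j' → IsProperMap f → (∀ y, i (fY y) = f (i' y)) → (∀ u, j (fU u) = f (j' u)) →
    ∀ y, δ i' j' (Hpull fY y) = Hpull fU (δ i j y)
  lin : ∀ {X Y U K : Type} [TopologicalSpace X] [TopologicalSpace Y] [TopologicalSpace U]
    [T2Space X] [LocallyCompactSpace X] [TopologicalSpace K] [CompactSpace K] [T2Space K]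
    (i : C(Y, X)) (j : C(U, X)) (f : C(X, K)), Pair i j →
    ∀ a y, δ i j (Hact (f.comp i) a y) = Hact (f.comp j) a (δ i j y)
  deg : ∀ {X Y U : Type} [TopologicalSpace X] [TopologicalSpace Y] [TopologicalSpace U]
    [T2Space X] [LocallyCompactSpace X] (i : C(Y, X)) (j : C(U, X)), Pair i j →
    ∀ d e y, HDeg d e y → HDeg e (d + 1) (δ i j y)

def S_LES : Prop := ∃ δ : DelT, IsDel δ

def S_Thom : Prop :=
  ∀ {X E : Type} [TopologicalSpace X] [TopologicalSpace E] (ξ : Bun X) (π : C(E, X))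
    (t : C(E, ξ.W)), IsTot ξ π t → Tw π (ξ.pull π) t ∧ Function.Bijective (twist π (ξ.pull π) t) ∧
      Function.Bijective (Htwist π (ξ.pull π) t)

/-- The type of families of Gysin maps. -/
abbrev GysT : Type 1 :=
  ∀ {X S : Type} [TopologicalSpace X] [TopologicalSpace S] (ξ : Bun X),
    C(S, X) → C(S, ξ.W) → H S →+ H X

structure IsGys (γ : GysT) : Prop where
  exact : ∀ {X S : Type} [TopologicalSpace X] [TopologicalSpace S] [T2Space X]
    [LocallyCompactSpace X] (ξ : Bun X) (π : C(S, X)) (t : C(S, ξ.W)), IsSph ξ π t →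
    IsProperMap π ∧ Function.Exact (Heul ξ) (Hpull π) ∧ Function.Exact (Hpull π) (γ ξ π t) ∧
      Function.Exact (γ ξ π t) (Heul ξ)
  nat : ∀ {X S X' S' : Type} [TopologicalSpace X] [TopologicalSpace S] [T2Space X]
    [LocallyCompactSpace X] [TopologicalSpace X'] [TopologicalSpace S'] [T2Space X']
    [LocallyCompactSpace X'] (ξ : Bun X) (π : C(S, X)) (t : C(S, ξ.W)) (f : C(X', X))
    (π' : C(S', X')) (t' : C(S', ξ.W)) (F : C(S', S)), IsSph ξ π t → IsSph (ξ.pull f) π' t' →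
    IsProperMap f → (∀ s, π (F s) = f (π' s)) → (∀ s, t (F s) = t' s) →
    IsProperMap F ∧ ∀ y, γ (ξ.pull f) π' t' (Hpull F y) = Hpull f (γ ξ π t y)
  lin : ∀ {X S K : Type} [TopologicalSpace X] [TopologicalSpace S] [T2Space X]
    [LocallyCompactSpace X] [TopologicalSpace K] [CompactSpace K] [T2Space K] (ξ : Bun X)
    (π : C(S, X)) (t : C(S, ξ.W)) (f : C(X, K)), IsSph ξ π t →
    ∀ a y, γ ξ π t (Hact (f.comp π) a y) = Hact f a (γ ξ π t y)
  deg : ∀ {X S : Type} [TopologicalSpace X] [TopologicalSpace S] [T2Space X]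
    [LocallyCompactSpace X] (ξ : Bun X) (π : C(S, X)) (t : C(S, ξ.W)) (k : ℕ), IsSph ξ π t →
    ξ.Rk k → ∀ d e y, HDeg d e y → HDeg (e - k) (d + 1 - k) (γ ξ π t y)

def S_Gys : Prop := ∃ γ : GysT, IsGys γ

/-! ### Projective bundles, Chern classes, the formal group law -/

/-- Products with a projective space. -/
def S_CPX : Prop :=
  ∀ N m : ℕ, eu (taut N m) ^ m = 0 ∧ (m ≤ N →
    ∀ {Y P : Type} [TopologicalSpace Y] [T2Space Y] [LocallyCompactSpace Y] [TopologicalSpace P]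
      (π : C(P, Y)) (q : C(P, CP N m)), IsHomeomorph (fun p => (π p, q p)) →
      Function.Bijective fun c : Fin m → H Y =>
        ∑ i : Fin m, Hact q (eu (taut N m) ^ (i : ℕ)) (Hpull π (c i)))

/-- The classes of the tautological bundles on a product of projective spaces. -/
def xs (r N m : ℕ) (i : Fin r) : h (Fin r → CP N m) :=
  eu ((taut N m).pull ⟨fun b => b i, continuous_apply i⟩)

def S_CPr : Prop :=
  ∀ r N m : ℕ, m ≤ N → (∀ i, xs r N m i ^ m = 0) ∧
    FreeOn (xs r N m) m (toU (Fin r → CP N m) : UU →+ h (Fin r → CP N m)) ∧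
    FreeOn (M := Mod (ContinuousMap.id (Fin r → CP N m))) (xs r N m) m (Hpull (toPt _))

/-- The projective bundle theorem. -/
def S_PBT : Prop :=
  ∀ {X P : Type} [TopologicalSpace X] [T2Space X] [LocallyCompactSpace X] [TopologicalSpace P]
    (ξ : Bun X) (k N : ℕ) (φ : FD.std N ≃L[ℂ] ξ.W) (π : C(P, X)) (q : C(P, CP N N)), ξ.Rk k →
    IsPr ξ φ π q → IsProperMap π ∧
      Function.Bijective fun c : Fin k → H X =>
        ∑ i : Fin k, Hact q (eu (taut N N) ^ (i : ℕ)) (Hpull π (c i))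

structure IsFGL (a : ℕ → ℕ → UU) : Prop where
  fg : FG a
  deg : ∀ i j : ℕ, IsDeg (1 - i - j) (a i j)
  nil : ∀ {K : Type} [TopologicalSpace K] [CompactSpace K] [T2Space K] (L : Bun K), L.Rk 1 →
    IsNilpotent (eu L)
  tens : ∀ {K : Type} [TopologicalSpace K] [CompactSpace K] [T2Space K] (L₁ L₂ L₃ : Bun K),
    L₁.Rk 1 → L₂.Rk 1 → L₃.Rk 1 → L₁.Tens L₂ L₃ → eu L₃ = Fm (cf (toU K) a) (eu L₁) (eu L₂)

def S_FGL : Prop := ∃ a, IsFGL a

/-- The splitting principle. -/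
def S_Split : Prop :=
  ∀ {K : Type} [TopologicalSpace K] [CompactSpace K] [T2Space K] (ξ : Bun K) (k : ℕ), ξ.Rk k →
    ∃ (K' : Type) (_ : TopologicalSpace K') (_ : CompactSpace K') (_ : T2Space K') (f : C(K', K))
      (L : Fin k → Bun K'), (∀ i, (L i).Rk 1) ∧ (ξ.pull f).Split L ∧ Function.Injective (pull f) ∧
      ∀ (T : Type) [TopologicalSpace T] [CompactSpace T] [T2Space T],
        Function.Injective (pull ((ContinuousMap.id T).prodMap f))

/-- The type of families of characteristic classes. -/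
abbrev ChT : Type 1 :=
  ∀ {K : Type} [TopologicalSpace K] [CompactSpace K] [T2Space K], Bun K → ℕ → h K

structure IsCh (ch : ChT) : Prop where
  nat : ∀ {K K' : Type} [TopologicalSpace K] [CompactSpace K] [T2Space K] [TopologicalSpace K']
    [CompactSpace K'] [T2Space K'] (ξ : Bun K) (k : ℕ) (f : C(K', K)), ξ.Rk k →
    ∀ i, pullR f (ch ξ i) = ch (ξ.pull f) i
  split : ∀ {K : Type} [TopologicalSpace K] [CompactSpace K] [T2Space K] (ξ : Bun K) (k : ℕ)
    (L : Fin k → Bun K), (∀ i, (L i).Rk 1) → ξ.Split L →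
    ∀ i, ch ξ i = (Finset.univ.val.map fun l => eu (L l)).esymm i
  deg : ∀ {K : Type} [TopologicalSpace K] [CompactSpace K] [T2Space K] (ξ : Bun K) (k : ℕ), ξ.Rk k →
    ∀ i : ℕ, IsDeg i (ch ξ i)

def S_Ch : Prop := ∃ ch : ChT, IsCh ch

/-! ### The coefficient ring -/

/-- General position. -/
def S_GP : Prop :=
  (∀ d > 0, ∀ x : UU, part d x = 0) ∧ (∀ d > 0, ∀ x : h (Unit × ℝ), part d x = 0) ∧
    ∀ x : UU, ∃ n : ℤ, part 0 x = n

/-- The degree. -/
def S_DG : Prop := ∀ n : ℤ, (n : UU) = 0 → n = 0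

/-- Quillen's descent. -/
def S_Q : Prop :=
  ∀ a, IsFGL a → ∀ (X : Type) [TopologicalSpace X] [T2Space X] [LocallyCompactSpace X]
    (R : AddSubgroup (h X)), (∀ i j, ∀ x ∈ R, act (toPt X) (a i j) x ∈ R) →
    (∀ d, ∀ x ∈ R, part d x ∈ R) → (∀ x : h X, x + x ∈ R) → ∀ d ≤ 0,
    (∀ e > d, ∀ x, IsDeg e x → x ∈ R) → ∀ x, IsDeg d x →
    (if d = 0 then prod (ContinuousMap.id X) (ContinuousMap.id X) x x - x else x) ∈ R

def S_QA : Prop :=
  ∀ a, IsFGL a →
    (∀ u : UU, ∃ c ∈ Subring.closure (range fun q : ℕ × ℕ => a q.1 q.2), ∃ y, u = c + 2 * y) ∧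
    (∀ u : UU, 2 * u = 0 → u = 0) ∧ Function.Bijective fun x : h (Unit × ℝ) => x + x

/-- The type of total operations. -/
abbrev LNT : Type 1 :=
  ∀ (K : Type) [TopologicalSpace K] [CompactSpace K] [T2Space K], h K →+* MvPolynomial ℕ (h K)

/-- The total Landweber-Novikov operation. -/
structure IsLN (s : LNT) : Prop where
  nat : ∀ {K K' : Type} [TopologicalSpace K] [CompactSpace K] [T2Space K] [TopologicalSpace K']
    [CompactSpace K'] [T2Space K'] (f : C(K', K)) (x : h K),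
    s K' (pullR f x) = MvPolynomial.map (pullR f) (s K x)
  line : ∀ {K : Type} [TopologicalSpace K] [CompactSpace K] [T2Space K] (L : Bun K), L.Rk 1 →
    s K (eu L) = MvPolynomial.C (eu L) * bq (eu L)
  deg : ∀ {K : Type} [TopologicalSpace K] [CompactSpace K] [T2Space K] (d : ℤ) (x : h K),
    IsDeg d x → ∀ α : ℕ →₀ ℕ,
    IsDeg (d + (Finsupp.weight (fun n => n + 1) α : ℕ)) ((s K x).coeff α)

def S_LN : Prop := ∃ s : LNT, IsLN s

def S_Reg : Prop :=
  ∀ a, IsFGL a → ∀ r, Reg (vs a) r UU ∧ (1 : UU) ∉ Ideal.span (vs a '' Iio r) ∧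
    Reg (vs a) r (Mod (toPt Unit))

end

end Pool.Agent.MP_826def_gt.MU
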