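import Pool.Agent.MP_826def_gt.H44.Defs

/-!
Specification of the algebraic steps and of the reduction from topological complexity to odd maps
on products of spheres.
-/

namespace Pool.Agent.MP_826def_gt.MU

open Set Filter Topology

noncomputable section

/-- The value of the series with coefficients `a` at two nilpotent elements. -/
def Fm {A : Type 1} [CommRing A] (a : ℕ → ℕ → A) (x y : A) : A :=
  ∑ᶠ q : ℕ × ℕ, a q.1 q.2 * (x ^ q.1 * y ^ q.2)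

/-- The coefficient of `T ^ m` in `F(T, T)`. -/
def wc {A : Type 1} [CommRing A] (a : ℕ → ℕ → A) (m : ℕ) : A :=
  ∑ i ∈ Finset.range (m + 1), a i (m - i)

/-- The value of `F(T, T) / T` at a nilpotent element. -/
def tw {A : Type 1} [CommRing A] (a : ℕ → ℕ → A) (x : A) : A := ∑ᶠ m : ℕ, wc a (m + 1) * x ^ m

/-- The coefficients moved along a ring map. -/
def cf {U A : Type 1} [CommRing U] [CommRing A] (φ : U →+* A) (a : ℕ → ℕ → U) : ℕ → ℕ → A :=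
  fun i j => φ (a i j)

/-- Commutative formal group law. -/
structure FG {U : Type 1} [CommRing U] (a : ℕ → ℕ → U) : Prop where
  unit : ∀ i, a i 0 = if i = 1 then 1 else 0
  symm : ∀ i j, a i j = a j i
  assoc : ∀ (A : Type 1) [CommRing A] (φ : U →+* A) (x y z : A), IsNilpotent x → IsNilpotent y →
    IsNilpotent z → Fm (cf φ a) (Fm (cf φ a) x y) z = Fm (cf φ a) x (Fm (cf φ a) y z)

/-- `M` is the direct sum of the copies `X ^ e • ι N` over the exponents `e i < n`. -/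
def FreeOn {A N M : Type 1} [CommRing A] [AddCommGroup N] [AddCommGroup M] [Module A M] {r : ℕ}
    (X : Fin r → A) (n : ℕ) (ι : N →+ M) : Prop :=
  Function.Bijective fun c : (Fin r → Fin n) → N => ∑ e, (∏ i, X i ^ (e i : ℕ)) • ι (c e)

/-- The sequence `w 0, …, w (r - 1)` is weakly regular on `N`. -/
def Reg {U : Type 1} [CommRing U] (w : ℕ → U) (r : ℕ) (N : Type 1) [AddCommGroup N] [Module U N] :
    Prop :=
  ∀ k < r, ∀ x : N, w k • x ∈ Ideal.span (w '' Iio k) • (⊤ : Submodule U N) →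
    x ∈ Ideal.span (w '' Iio k) • (⊤ : Submodule U N)

/-- The sequence `2, v_1, v_2, …`. -/
def vs {U : Type 1} [CommRing U] (a : ℕ → ℕ → U) (k : ℕ) : U := wc a (2 ^ k)

/-! ### Basic facts on `Fm` -/

def S_Fm : Prop :=
  ∀ (A : Type 1) [CommRing A] (a : ℕ → ℕ → A) (x y : A),
    (∀ N, x ^ N = 0 → y ^ N = 0 →
      Fm a x y = ∑ i ∈ Finset.range N, ∑ j ∈ Finset.range N, a i j * (x ^ i * y ^ j)) ∧
    (∀ N, x ^ N = 0 → tw a x = ∑ m ∈ Finset.range N, wc a (m + 1) * x ^ m) ∧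
    (∀ (B : Type 1) [CommRing B] (φ : A →+* B), IsNilpotent x → IsNilpotent y →
      φ (Fm a x y) = Fm (cf φ a) (φ x) (φ y) ∧ φ (tw a x) = tw (cf φ a) (φ x)) ∧
    ((∀ i, a i 0 = if i = 1 then 1 else 0) → (∀ i j, a i j = a j i) → IsNilpotent x →
      IsNilpotent y → Fm a x y = Fm a y x ∧ Fm a x 0 = x ∧ IsNilpotent (Fm a x y) ∧
        x ∣ Fm a x y - y ∧ x * y ∣ Fm a x y - x - y ∧ Fm a x x = x * tw a x ∧ x ∣ tw a x - 2)

/-- Associativity in the truncated polynomial rings gives associativity everywhere. -/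
def S_FGof : Prop :=
  ∀ (U : Type 1) [CommRing U] (a : ℕ → ℕ → U), (∀ i, a i 0 = if i = 1 then 1 else 0) →
    (∀ i j, a i j = a j i) →
    (∀ n : ℕ, ∃ (A : Type 1) (_ : CommRing A) (φ : U →+* A) (X : Fin 3 → A), (∀ i, X i ^ n = 0) ∧
      FreeOn X n (φ : U →+ A) ∧
      Fm (cf φ a) (Fm (cf φ a) (X 0) (X 1)) (X 2) = Fm (cf φ a) (X 0) (Fm (cf φ a) (X 1) (X 2))) →
    FG a

/-! ### The structure of the coefficient ring modulo two -/

/-- A grading by `ℕ`, given by its projections. -/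
structure Grd {U : Type 1} [CommRing U] (π : ℕ → U →+ U) : Prop where
  fin : ∀ u, ∃ D, ∑ d ∈ Finset.range D, π d u = u
  proj : ∀ d e u, π d (π e u) = if d = e then π e u else 0
  one : π 0 1 = 1
  mul : ∀ d e u v, π d u = u → π e v = v → π (d + e) (u * v) = u * v

/-- The variable `X n` has weight `n + 1`. -/
def S_G : Prop :=
  ∀ (U : Type 1) [CommRing U] (a : ℕ → ℕ → U) (π : ℕ → U →+ U) (θ : U →+* MvPolynomial ℕ ℤ),
    FG a → Grd π → (∀ i j d, i + j = d + 1 → π d (a i j) = a i j) →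
    (∀ u : U, ∃ c ∈ Subring.closure (range fun q : ℕ × ℕ => a q.1 q.2), ∃ y, u = c + 2 * y) →
    (∀ u : U, 2 * u = 0 → u = 0) →
    (∀ d u, π d u = u → (θ u).IsWeightedHomogeneous (fun n => n + 1) d) →
    (∀ i j n, 1 ≤ i → 1 ≤ j → i + j = n + 2 →
      (θ (a i j)).coeff (Finsupp.single n 1) = ((n + 2).choose i : ℤ)) →
    ∀ r, Reg (vs a) r U ∧ (1 : U) ∉ Ideal.span (vs a '' Iio r)

/-- The series `x + b_1 x ^ 2 + b_2 x ^ 3 + …` divided by `x`, where `b_(n+1) = X n`. -/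
def bq {A : Type 1} [CommRing A] (x : A) : MvPolynomial ℕ A :=
  1 + ∑ᶠ n : ℕ, MvPolynomial.X n * MvPolynomial.C (x ^ (n + 1))

/-- The linear terms of the Hurewicz images of the coefficients. -/
def S_Hur : Prop :=
  ∀ (U A : Type 1) [CommRing U] [CommRing A] (a : ℕ → ℕ → U) (φ : U →+* A) (X : Fin 2 → A) (N : ℕ)
    (sU : U →+* MvPolynomial ℕ U) (sA : A →+* MvPolynomial ℕ A) (ε : U →+* ℤ),
    (∀ i, a i 0 = if i = 1 then 1 else 0) → (∀ i j, a i j = a j i) →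
    (∀ i, X i ^ N = 0) → FreeOn X N (φ : U →+ A) →
    (∀ u, sA (φ u) = MvPolynomial.map φ (sU u)) →
    (∀ i, sA (X i) = MvPolynomial.C (X i) * bq (X i)) →
    sA (Fm (cf φ a) (X 0) (X 1)) =
      MvPolynomial.C (Fm (cf φ a) (X 0) (X 1)) * bq (Fm (cf φ a) (X 0) (X 1)) →
    (∀ i j, 2 ≤ i + j → ε (a i j) = 0) →
    ∀ i j n, 1 ≤ i → 1 ≤ j → i + j = n + 2 → n + 2 < N →
      (MvPolynomial.map ε (sU (a i j))).coeff (Finsupp.single n 1) = ((n + 2).choose i : ℤ)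

/-! ### The Gysin tower -/

/-- The exponents of the zero divisor. -/
def ex {r : ℕ} (i₀ i₁ : Fin r) (j : ℕ) (i : Fin r) : ℕ :=
  if i = i₀ then 0 else if i = i₁ then 2 * j else j

/-- The composite of the first `k` maps of a tower. -/
def up {A : Type 1} [CommRing A] (M : ℕ → Type 1) [∀ k, AddCommGroup (M k)] [∀ k, Module A (M k)]
    (π : ∀ k, M k →ₗ[A] M (k + 1)) : ∀ k, M 0 →ₗ[A] M k
  | 0 => LinearMap.id
  | k + 1 => π k ∘ₗ up M π k

def S_H : Prop :=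
  ∀ (r : ℕ) (i₀ i₁ : Fin r), i₀ ≠ i₁ → ∃ c : ℕ, ∀ (L j' s : ℕ), 1 ≤ j' → r * s < 2 ^ L →
    c * (1 + Nat.log 2 (2 * (2 ^ L * j'))) ≤ s →
    ∀ (U A N : Type 1) [CommRing U] [CommRing A] [AddCommGroup N] [Module U N] (a : ℕ → ℕ → U)
      (φ : U →+* A) (X : Fin r → A) (M : ℕ → Type 1) [∀ k, AddCommGroup (M k)]
      [∀ k, Module A (M k)] (ι : N →+ M 0) (η : A →ₗ[A] M 0) (ρ : M 0 →ₗ[A] A)
      (π : ∀ k, M k →ₗ[A] M (k + 1)) (γ : ∀ k, M (k + 1) →ₗ[A] M k),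
      FG a → Reg (vs a) (r + 1) U → (1 : U) ∉ Ideal.span (vs a '' Iio r) → Reg (vs a) r N →
      (∀ i, X i ^ (2 ^ L * j' + s + 1) = 0) → FreeOn X (2 ^ L * j' + s + 1) (φ : U →+ A) →
      FreeOn X (2 ^ L * j' + s + 1) ι → (∀ (u : U) n, ι (u • n) = φ u • ι n) →
      (∀ x, ρ (η x) = x) →
      (∀ k : Fin r, Function.Exact (fun m : M k => Fm (cf φ a) (X k) (X k) • m) (π k) ∧
        Function.Exact (π k) (γ k) ∧
        Function.Exact (γ k) (fun m : M k => Fm (cf φ a) (X k) (X k) • m)) →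
      up M π r (η (∏ i, (X i₀ - X i) ^ ex i₀ i₁ (2 ^ L * j') i)) ≠ 0

/-! ### From topological complexity to odd maps -/

/-- The unit sphere of the supremum norm on `ℂ ^ N`. -/
abbrev Sp (N : ℕ) : Type := Metric.sphere (0 : Fin N → ℂ) 1

/-- Change of signs. -/
def flip {r N : ℕ} (ε : Fin r → Bool) (u : Fin r → Sp N) : Fin r → Sp N :=
  fun i => if ε i then -u i else u i

/-- Functions without common zero, `m i` of them odd exactly in the variables `i₀` and `i`. -/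
def Sec (r : ℕ) (i₀ : Fin r) (N : ℕ) (m : Fin r → ℕ) : Prop :=
  ∃ F : (i : Fin r) → Fin (m i) → C(Fin r → Sp N, ℂ),
    (∀ i c ε u, F i c (flip ε u) = (if ε i₀ = ε i then 1 else -1) * F i c u) ∧
      ∀ u, ∃ i c, F i c u ≠ 0

def S_TC : Prop :=
  ∀ (G : Type) [Group G] [Fintype G] (τ : G), τ ≠ 1 → τ * τ = 1 →
    ∀ (r : ℕ) (i₀ : Fin r) (N k n : ℕ) (m : Fin r → ℕ), m i₀ = 0 → 2 * N ≤ k + 1 →
      n + 1 ≤ 2 * ∑ i, m i → H44.Cov (H44.diag r (H44.BG G k)) n → Sec r i₀ N m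

/-- The main topological theorem. -/
def S_NoSec : Prop :=
  ∀ (r : ℕ) (i₀ i₁ : Fin r), i₀ ≠ i₁ → ∃ c : ℕ, ∀ (L j' s : ℕ), 1 ≤ j' → r * s < 2 ^ L →
    c * (1 + Nat.log 2 (2 * (2 ^ L * j'))) ≤ s →
    ¬ Sec r i₀ (2 ^ L * j' + s + 1) (ex i₀ i₁ (2 ^ L * j'))

def S_Final : Prop :=
  ∀ (G : Type) [Group G] [Fintype G], Even (Fintype.card G) → ∀ r : ℕ, 2 ≤ r →
    Tendsto (fun n : ℕ => (H44.alpha G r n : ℝ) / (n : ℝ)) atTop (𝓝 (1 / (r : ℝ)))

def S_FinalOf : Prop := S_TC → S_NoSec → S_Final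

/-! ### Brouwer degree -/

/-- Admissible maps: continuous on an open set with compact zero set. -/
def Adm {V : Type} [NormedAddCommGroup V] (f : V → V) (Ω : Set V) : Prop :=
  IsOpen Ω ∧ ContinuousOn f Ω ∧ IsCompact {x | x ∈ Ω ∧ f x = 0}

def S_Deg : Prop :=
  ∀ (V : Type) [NormedAddCommGroup V] [NormedSpace ℝ V] [FiniteDimensional ℝ V],
    ∃ D : (V → V) → Set V → ℝ,
      (∀ (G : ℝ × V → V) (O : Set (ℝ × V)), IsOpen O → ContinuousOn G O →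
        IsCompact {z | z ∈ O ∧ z.1 ∈ Icc (0 : ℝ) 1 ∧ G z = 0} →
        D (fun x => G (0, x)) {x | (0, x) ∈ O} = D (fun x => G (1, x)) {x | (1, x) ∈ O}) ∧
      (∀ f g Ω, Adm f Ω → EqOn f g Ω → D f Ω = D g Ω) ∧
      (∀ f Ω Ω₁ Ω₂, Adm f Ω → IsOpen Ω₁ → IsOpen Ω₂ → Disjoint Ω₁ Ω₂ → Ω₁ ⊆ Ω → Ω₂ ⊆ Ω →
        (∀ x ∈ Ω, f x = 0 → x ∈ Ω₁ ∪ Ω₂) → D f Ω = D f Ω₁ + D f Ω₂) ∧
      (∀ f Ω, Adm f Ω → (∀ x ∈ Ω, f x ≠ 0) → D f Ω = 0) ∧
      ∀ f Ω (z : V) (A : V →L[ℝ] V), Adm f Ω → z ∈ Ω → (∀ x ∈ Ω, f x = 0 ↔ x = z) →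
        HasFDerivAt f A z → A.det ≠ 0 → D f Ω = SignType.sign A.det

end

end Pool.Agent.MP_826def_gt.MU
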