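import Pool.Agent.MP_826def_gt.MU.Core
import Pool.Agent.MP_826def_gt.MU.Alg

/-!
The groups, rings and maps of complex cobordism, given the facts on cocycles, and the statements of
the formal properties.
-/

namespace Pool.Agent.MP_826def_gt.MU

open Set Topology

noncomputable section

variable {X X' X'' U K K' Y : Type} [TopologicalSpace X] [TopologicalSpace X']
  [TopologicalSpace X''] [TopologicalSpace U] [TopologicalSpace K] [TopologicalSpace K']
  [TopologicalSpace Y]

instance : Zero (h X) := ⟨zero0 X⟩
instance : Add (h X) := ⟨add0⟩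
instance : Neg (h X) := ⟨neg0⟩

variable [C : Fact Core]

instance : AddCommGroup (h X) :=
  { AddGroup.ofLeftAxioms (G := h X) C.out.sum.2.2.1 C.out.sum.2.2.2.2 C.out.laws.neg with
    add_comm := C.out.sum.2.2.2.1 }

open Classical in
/-- Pull back along a proper map. -/
def pull (f : C(X', X)) : h X →+ h X' :=
  if hf : IsProperMap f then AddMonoidHom.mk' (pull0 f) (C.out.pull f hf).2 else 0

open Classical in
/-- Extension by zero along an open embedding. -/
def push (j : C(U, X)) : h U →+ h X :=
  if hj : IsOpenEmbedding j then AddMonoidHom.mk' (push0 j) (C.out.push j hj).2 else 0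

/-- Integration over a complex vector space. -/
def pushV (E : FD) : h (X × E) →+ h X := AddMonoidHom.mk' (pushV0 E) (C.out.pushV E).2

open Classical in
/-- Pull back along `g` and multiply by the class of the section `σ` of `ξ`. -/
def twist (g : C(X', X)) (ξ : Bun X') (σ : C(X', ξ.W)) : h X →+ h X' :=
  if hg : Tw g ξ σ then AddMonoidHom.mk' (twist0 g ξ σ) (C.out.twist g ξ σ hg).2 else 0

open Classical in
/-- The product of the pull backs along `f` and `g`. -/
def prod (f : C(X, K)) (g : C(X, Y)) : h K →+ h Y →+ h X :=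
  if hf : Pr f g then AddMonoidHom.mk'
    (fun a => AddMonoidHom.mk' (prod0 f g a) ((C.out.prod f g hf).2.2.2 a))
    fun a b => AddMonoidHom.ext fun y => (C.out.prod f g hf).2.2.1 a b y
  else 0

/-- The component of degree `d` (cohomological degree `2 d`). -/
def part (d : ℤ) : h X →+ h X := AddMonoidHom.mk' (part0 d) (C.out.part d).2

theorem pull_eq {f : C(X', X)} (hf : IsProperMap f) (x : h X) : pull f x = pull0 f x := by
  rw [pull, dif_pos hf]; rfl

theorem pull_cls {f : C(X', X)} (hf : IsProperMap f) {c : Raw X} (hc : c.Good) :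
    pull f (cls c) = cls (c.pull f) := (pull_eq hf _).trans ((C.out.pull f hf).1 c hc)

theorem push_cls {j : C(U, X)} (hj : IsOpenEmbedding j) {c : Raw U} (hc : c.Good) :
    push j (cls c) = cls (c.push j) := by
  rw [push, dif_pos hj]; exact (C.out.push j hj).1 c hc

theorem pushV_cls (E : FD) {c : Raw (X × E)} (hc : c.Good) : pushV E (cls c) = cls (c.pushV E) :=
  (C.out.pushV E).1 c hc

theorem twist_cls {g : C(X', X)} {ξ : Bun X'} {σ : C(X', ξ.W)} (hg : Tw g ξ σ) {c : Raw X}
    (hc : c.Good) : twist g ξ σ (cls c) = cls (c.twist g ξ σ) := by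
  rw [twist, dif_pos hg]; exact (C.out.twist g ξ σ hg).1 c hc

theorem prod_eq {f : C(X, K)} {g : C(X, Y)} (hf : Pr f g) (a : h K) (y : h Y) :
    prod f g a y = prod0 f g a y := by
  rw [prod, dif_pos hf]; rfl

theorem prod_cls {f : C(X, K)} {g : C(X, Y)} (hf : Pr f g) {a : Raw K} {c : Raw Y} (ha : a.Good)
    (hc : c.Good) : prod f g (cls a) (cls c) = cls (a.prod c f g) :=
  (prod_eq hf _ _).trans ((C.out.prod f g hf).1 a c ha hc)

theorem part_cls (d : ℤ) {c : Raw X} (hc : c.Good) : part d (cls c) = cls (c.part d) :=
  (C.out.part d).1 c hc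

theorem cls_empty {c : Raw X} (hc : c.Good) (e : c.Z = ∅) : cls c = 0 := C.out.empty c hc e

theorem cls_split {c : Raw X} {G G' : Set (X × c.V)} (hc : c.Good) (hG : IsOpen G)
    (hG' : IsOpen G') (hd : Disjoint G G') (hZ : c.Z ⊆ G ∪ G') :
    cls c = cls (c.res G) + cls (c.res G') := C.out.sum.1 c G G' hc hG hG' hd hZ

theorem prod_comm {f : C(X, K)} {g : C(X, Y)} (hf : Pr f g) (hg : Pr g f) (a : h K) (y : h Y) :
    prod f g a y = prod g f y a := by
  rw [prod_eq hf, prod_eq hg, (C.out.prod f g hf).2.1]

omit C in
theorem Pr.comp {f : C(X, K)} {g : C(X, Y)} (hf : Pr f g) {φ : C(X', X)} (hφ : IsProperMap φ) :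
    Pr (f.comp φ) (g.comp φ) := IsProperMap.comp hf hφ

omit C in
theorem pr_id [T2Space K] (f : C(X, K)) : Pr f (ContinuousMap.id X) := by
  have : IsClosedEmbedding fun x : X => (f x, x) :=
    IsClosedEmbedding.mk (Function.LeftInverse.isEmbedding (f := Prod.snd) (fun _ => rfl)
      continuous_snd (f.continuous.prodMk continuous_id)) (by
        have : (range fun x : X => (f x, x)) = {z : K × X | z.1 = f z.2} := by
          ext z
          exact ⟨by rintro ⟨x, rfl⟩; rfl, fun e => ⟨z.2, Prod.ext e.symm rfl⟩⟩
        rw [this]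
        exact isClosed_eq continuous_fst (f.continuous.comp continuous_snd))
  exact this.isProperMap

theorem pull_prod {f : C(X, K)} {g : C(X, Y)} (hf : Pr f g) {φ : C(X', X)} (hφ : IsProperMap φ)
    (a : h K) (y : h Y) : pull φ (prod f g a y) = prod (f.comp φ) (g.comp φ) a y := by
  induction a using h_ind with | _ a ha => ?_
  induction y using h_ind with | _ y hy => ?_
  rw [prod_cls hf ha hy, pull_cls hφ (C.out.good2.prod ha hy hf), prod_cls (hf.comp hφ) ha hy]
  rfl

theorem prod_pull {Y' : Type} [TopologicalSpace Y'] {f : C(X, K')} {g : C(X, Y')} {f' : C(K', K)}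
    {g' : C(Y', Y)} (hf : Pr f g) (hf' : IsProperMap f') (hg' : IsProperMap g') (a : h K)
    (y : h Y) : prod f g (pull f' a) (pull g' y) = prod (f'.comp f) (g'.comp g) a y := by
  induction a using h_ind with | _ a ha => ?_
  induction y using h_ind with | _ y hy => ?_
  have h1 : Pr (f'.comp f) (g'.comp g) := IsProperMap.comp (hf'.prodMap hg') hf
  rw [pull_cls hf' ha, pull_cls hg' hy,
    prod_cls hf (C.out.good1.pull ha hf') (C.out.good1.pull hy hg'), prod_cls h1 ha hy]
  rfl

theorem pull_id (x : h X) : pull (ContinuousMap.id X) x = x := by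
  induction x using h_ind with | _ c hc => ?_
  rw [pull_cls isProperMap_id hc]
  rfl

theorem pull_comp {f : C(X', X)} {g : C(X'', X')} (hf : IsProperMap f) (hg : IsProperMap g)
    (x : h X) : pull g (pull f x) = pull (f.comp g) x := by
  induction x using h_ind with | _ c hc => ?_
  rw [pull_cls hf hc, pull_cls hg (C.out.good1.pull hc hf), pull_cls (f := f.comp g) (hf.comp hg) hc]
  rfl

section ring

variable [CompactSpace K] [T2Space K] [CompactSpace K'] [T2Space K']

omit [CompactSpace K] in
theorem act_mul (f : C(X, K)) (a b : h K) (x : h X) :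
    prod f (ContinuousMap.id X) (prod (ContinuousMap.id K) (ContinuousMap.id K) a b) x =
      prod f (ContinuousMap.id X) a (prod f (ContinuousMap.id X) b x) := by
  rw [prod_eq (pr_id f), prod_eq (pr_id f), prod_eq (pr_id f), prod_eq (pr_id _)]
  exact C.out.laws.assoc f _ _ (ContinuousMap.id X) f (ContinuousMap.id X) f (ContinuousMap.id X)
    (fun _ => rfl) (fun _ => rfl) (fun _ => rfl) (pr_id f) (pr_id _) (pr_id f) (pr_id f) a b x

theorem act_one (f : C(X, K)) (x : h X) : prod f (ContinuousMap.id X) (cls (Raw.one K)) x = x := by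
  rw [prod_eq (pr_id f)]
  exact C.out.laws.one f x

instance : CommRing (h K) :=
  { (inferInstance : AddCommGroup (h K)) with
    mul := fun a b => prod (ContinuousMap.id K) (ContinuousMap.id K) a b
    one := cls (Raw.one K)
    left_distrib := fun a b c => map_add (prod _ _ a) b c
    right_distrib := fun a b c => congrArg (fun φ : h K →+ h K => φ c) (map_add (prod _ _) a b)
    zero_mul := fun c => congrArg (fun φ : h K →+ h K => φ c) (map_zero (prod _ _))
    mul_zero := fun a => map_zero (prod _ _ a)
    mul_assoc := act_mul _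
    one_mul := act_one _
    mul_one := fun a => (prod_comm (pr_id _) (pr_id _) _ _).trans (act_one _ a)
    mul_comm := prod_comm (pr_id _) (pr_id _) }

theorem mul_def (a b : h K) : a * b = prod (ContinuousMap.id K) (ContinuousMap.id K) a b := rfl

theorem one_def : (1 : h K) = cls (Raw.one K) := rfl

/-- The action of the ring of `K` on the group of a space over `K`. -/
def act (f : C(X, K)) : h K →+* AddMonoid.End (h X) where
  toFun a := prod f (ContinuousMap.id X) a
  map_one' := AddMonoidHom.ext (act_one f)
  map_mul' a b := AddMonoidHom.ext (act_mul f a b)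
  map_zero' := map_zero (prod _ _)
  map_add' := map_add (prod _ _)

theorem act_def (f : C(X, K)) (a : h K) (x : h X) : act f a x = prod f (ContinuousMap.id X) a x :=
  rfl

/-- Pull back as a ring map. -/
def pullR (f : C(K', K)) : h K →+* h K' :=
  { pull f with
    map_one' := (pull_cls f.continuous.isProperMap (C.out.good1.one K)).trans rfl
    map_mul' := fun a b => (pull_prod (pr_id _) f.continuous.isProperMap a b).trans
      (prod_pull (pr_id (ContinuousMap.id K')) f.continuous.isProperMap f.continuous.isProperMap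
        a b).symm }

theorem pullR_apply (f : C(K', K)) (a : h K) : pullR f a = pull f a := rfl

end ring

/-- The coefficient ring. -/
abbrev UU : Type 1 := h Unit

/-- The map to a point. -/
abbrev toPt (X : Type) [TopologicalSpace X] : C(X, Unit) := ContinuousMap.const X ()

/-- The structure map of the ring of a compact space. -/
abbrev toU (K : Type) [TopologicalSpace K] [CompactSpace K] [T2Space K] : UU →+* h K :=
  pullR (toPt K)

/-- Multiplication by the Euler class. -/
abbrev eul (ξ : Bun X) : h X →+ h X := twist (ContinuousMap.id X) ξ 0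

/-- The Euler class. -/
def eu [CompactSpace K] [T2Space K] (ξ : Bun K) : h K := eul ξ 1

/-- Homogeneous of degree `d`. -/
def IsDeg (d : ℤ) (x : h X) : Prop := part d x = x

/-! ### Even and odd degrees together -/

abbrev H (X : Type) [TopologicalSpace X] : Type 1 := h X × h (X × ℝ)

/-- The product with the identity of the line. -/
abbrev xR (f : C(X', X)) : C(X' × ℝ, X × ℝ) := f.prodMap (ContinuousMap.id ℝ)

def Hpull (f : C(X', X)) : H X →+ H X' := (pull f).prodMap (pull (xR f))

def Hpush (j : C(U, X)) : H U →+ H X := (push j).prodMap (push (xR j))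

def Htwist (g : C(X', X)) (ξ : Bun X') (σ : C(X', ξ.W)) : H X →+ H X' :=
  (twist g ξ σ).prodMap (twist (xR g) (ξ.pull ContinuousMap.fst) (σ.comp ContinuousMap.fst))

abbrev Heul (ξ : Bun X) : H X →+ H X := Htwist (ContinuousMap.id X) ξ 0

def Hact [CompactSpace K] [T2Space K] (f : C(X, K)) : h K →+* AddMonoid.End (H X) where
  toFun a := AddMonoidHom.prodMap (act f a) (act (f.comp ContinuousMap.fst) a)
  map_one' := by rw [map_one, map_one]; rfl
  map_mul' a b := by rw [map_mul, map_mul]; rfl
  map_zero' := by rw [map_zero, map_zero]; rfl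
  map_add' a b := by rw [map_add, map_add]; rfl

def HDeg (d e : ℤ) (y : H X) : Prop := IsDeg d y.1 ∧ IsDeg e y.2

/-- The group `H X` as a module over the ring of `K`. -/
def Mod (_f : C(X, K)) : Type 1 := H X

instance (f : C(X, K)) : AddCommGroup (Mod f) := inferInstanceAs (AddCommGroup (H X))

instance [CompactSpace K] [T2Space K] (f : C(X, K)) : Module (h K) (Mod f) :=
  Module.compHom (H X) (Hact f)

theorem Mod.smul_def [CompactSpace K] [T2Space K] (f : C(X, K)) (a : h K) (y : Mod f) :
    a • y = Hact f a y := rfl

end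

end Pool.Agent.MP_826def_gt.MU
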