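import Mathlib

/-!
Complex cobordism with compact supports from cocycles: definitions and the statements of the basic
facts on cocycles.
-/

namespace Pool.Agent.MP_826def_gt.MU

open Set Topology

noncomputable section

/-- Finite dimensional complex normed spaces. -/
structure FD : Type 1 where
  T : Type
  [i1 : NormedAddCommGroup T]
  [i2 : NormedSpace ℂ T]
  [i3 : FiniteDimensional ℂ T]

instance : CoeSort FD Type := ⟨FD.T⟩
instance (V : FD) : NormedAddCommGroup V := V.i1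
instance (V : FD) : NormedSpace ℂ V := V.i2
instance (V : FD) : FiniteDimensional ℂ V := V.i3
instance (V : FD) : ProperSpace V := FiniteDimensional.proper ℂ V
instance (V : FD) : CompleteSpace V := FiniteDimensional.complete ℂ V

abbrev FD.prod (V W : FD) : FD := ⟨V × W⟩
abbrev FD.zero : FD := ⟨Unit⟩
abbrev FD.C : FD := ⟨ℂ⟩
abbrev FD.hom (V W : FD) : FD := ⟨V →L[ℂ] W⟩
abbrev FD.std (N : ℕ) : FD := ⟨Fin N → ℂ⟩
abbrev FD.mat (N : ℕ) : FD := ⟨Fin N → Fin N → ℂ⟩

/-- The complex dimension. -/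
abbrev FD.dim (V : FD) : ℕ := Module.finrank ℂ V

/-- The rank of an operator. -/
def rk {W : FD} (p : W →L[ℂ] W) : ℕ := Module.finrank ℂ (LinearMap.range (p : W →ₗ[ℂ] W))

/-! ### Vector bundles as fields of idempotents -/

structure Bun (X : Type) [TopologicalSpace X] : Type 1 where
  W : FD
  p : C(X, W →L[ℂ] W)
  idem : ∀ x, p x ∘L p x = p x

namespace Bun

variable {X X' : Type} [TopologicalSpace X] [TopologicalSpace X']

abbrev pull (ξ : Bun X) (f : C(X', X)) : Bun X' := ⟨ξ.W, ξ.p.comp f, fun x => ξ.idem (f x)⟩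

abbrev triv (X : Type) [TopologicalSpace X] (E : FD) : Bun X :=
  ⟨E, ContinuousMap.const X (ContinuousLinearMap.id ℂ E), fun _ => rfl⟩

abbrev sum (ξ η : Bun X) : Bun X :=
  ⟨ξ.W.prod η.W, ⟨fun x => (ξ.p x).prodMap (η.p x),
    (ContinuousLinearMap.prodMapL ℂ ξ.W ξ.W η.W η.W).continuous.comp
      (ξ.p.continuous.prodMk η.p.continuous)⟩, fun x => ContinuousLinearMap.ext fun w =>
    Prod.ext (congrArg (fun q : ξ.W →L[ℂ] ξ.W => q w.1) (ξ.idem x))
      (congrArg (fun q : η.W →L[ℂ] η.W => q w.2) (η.idem x))⟩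

/-- The complementary bundle. -/
abbrev perp (ξ : Bun X) : Bun X :=
  ⟨ξ.W, ⟨fun x => ContinuousLinearMap.id ℂ ξ.W - ξ.p x, continuous_const.sub ξ.p.continuous⟩,
    fun x => by
      simp only [ContinuousMap.coe_mk, ContinuousLinearMap.comp_sub, ContinuousLinearMap.sub_comp,
        ContinuousLinearMap.comp_id, ContinuousLinearMap.id_comp, ξ.idem x, sub_self, sub_zero]⟩

/-- The operator `A ↦ q ∘ A ∘ p`. -/
def conj {V W : FD} (p : V →L[ℂ] V) (q : W →L[ℂ] W) : (V →L[ℂ] W) →L[ℂ] V →L[ℂ] W :=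
  ContinuousLinearMap.compL ℂ V W W q ∘L (ContinuousLinearMap.compL ℂ V V W).flip p

theorem conj_apply {V W : FD} (p : V →L[ℂ] V) (q : W →L[ℂ] W) (A : V →L[ℂ] W) :
    conj p q A = q ∘L A ∘L p := rfl

/-- The bundle of homomorphisms. -/
abbrev hom (ξ η : Bun X) : Bun X :=
  ⟨ξ.W.hom η.W, ⟨fun x => conj (ξ.p x) (η.p x), continuous_clm_apply.2 fun A =>
      η.p.continuous.clm_comp (continuous_const.clm_comp ξ.p.continuous)⟩,
    fun x => ContinuousLinearMap.ext fun A => by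
      show η.p x ∘L (η.p x ∘L A ∘L ξ.p x) ∘L ξ.p x = η.p x ∘L A ∘L ξ.p x
      rw [ContinuousLinearMap.comp_assoc, ContinuousLinearMap.comp_assoc, ξ.idem,
        ← ContinuousLinearMap.comp_assoc, η.idem]⟩

/-- The tensor product. -/
abbrev tens (ξ η : Bun X) : Bun X := (η.hom (triv X FD.C)).hom ξ

/-- Constant rank. -/
def Rk (ξ : Bun X) (k : ℕ) : Prop := ∀ x, rk (ξ.p x) = k

def Iso (ξ η : Bun X) : Prop :=
  ∃ (u : C(X, ξ.W →L[ℂ] η.W)) (v : C(X, η.W →L[ℂ] ξ.W)),
    ∀ x, v x ∘L u x = ξ.p x ∧ u x ∘L v x = η.p x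

/-- `ξ` is the direct sum of the bundles `L i`. -/
def Split (ξ : Bun X) {k : ℕ} (L : Fin k → Bun X) : Prop :=
  ∃ (u : ∀ i, C(X, (L i).W →L[ℂ] ξ.W)) (v : ∀ i, C(X, ξ.W →L[ℂ] (L i).W)),
    ∀ x, (∀ i, v i x ∘L u i x = (L i).p x) ∧ (∀ i j, i ≠ j → v i x ∘L u j x = 0) ∧
      ∑ i, u i x ∘L v i x = ξ.p x

/-- For line bundles: `L₃` is a tensor product of `L₁` and `L₂`. -/
def Tens (L₁ L₂ L₃ : Bun X) : Prop :=
  ∃ β : C(X, L₁.W →L[ℂ] L₂.W →L[ℂ] L₃.W), ∀ x a b, L₁.p x a = a → L₂.p x b = b →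
    L₃.p x (β x a b) = β x a b ∧ (β x a b = 0 → a = 0 ∨ b = 0)

end Bun

/-! ### Cocycles -/

structure Raw (X : Type) : Type 1 where
  V : FD
  W : FD
  O : Set (X × V)
  p : X × V → W →L[ℂ] W
  s : X × V → W

namespace Raw

variable {X X' U K Y : Type}

/-- The zero set. -/
def Z (c : Raw X) : Set (X × c.V) := {z | z ∈ c.O ∧ c.s z = 0}

structure Good [TopologicalSpace X] (c : Raw X) : Prop where
  op : IsOpen c.O
  cp : ContinuousOn c.p c.O
  cs : ContinuousOn c.s c.O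
  idem : ∀ z ∈ c.O, c.p z ∘L c.p z = c.p z
  sec : ∀ z ∈ c.O, c.p z (c.s z) = c.s z
  cpt : IsCompact c.Z

abbrev empty (X : Type) : Raw X := ⟨FD.zero, FD.zero, ∅, 0, 0⟩

abbrev one (X : Type) : Raw X := ⟨FD.zero, FD.zero, univ, 0, 0⟩

abbrev eps : Raw Unit :=
  ⟨FD.C, FD.C, univ, fun _ => ContinuousLinearMap.id ℂ ℂ, fun z => (starRingEnd ℂ) z.2⟩

abbrev res (c : Raw X) (G : Set (X × c.V)) : Raw X := ⟨c.V, c.W, c.O ∩ G, c.p, c.s⟩

abbrev pull (c : Raw X) (f : X' → X) : Raw X' :=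
  ⟨c.V, c.W, {z | (f z.1, z.2) ∈ c.O}, fun z => c.p (f z.1, z.2), fun z => c.s (f z.1, z.2)⟩

abbrev stab (c : Raw X) (E : FD) : Raw X :=
  ⟨c.V.prod E, c.W.prod E, {z | (z.1, z.2.1) ∈ c.O},
    fun z => (c.p (z.1, z.2.1)).prodMap (ContinuousLinearMap.id ℂ E),
    fun z => (c.s (z.1, z.2.1), z.2.2)⟩

abbrev viso (c : Raw X) (V' : FD) (e : V' ≃L[ℂ] c.V) : Raw X :=
  ⟨V', c.W, {z | (z.1, e z.2) ∈ c.O}, fun z => c.p (z.1, e z.2), fun z => c.s (z.1, e z.2)⟩

abbrev wemb (c : Raw X) (W' : FD) (j : c.W →L[ℂ] W') (r : W' →L[ℂ] c.W) : Raw X :=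
  ⟨c.V, W', c.O, fun z => j ∘L c.p z ∘L r, fun z => j (c.s z)⟩

/-- Pull back along `g` and add the bundle `ξ` with the section `σ`. -/
abbrev twist [TopologicalSpace X'] (c : Raw X) (g : X' → X) (ξ : Bun X') (σ : X' → ξ.W) : Raw X' :=
  ⟨c.V, c.W.prod ξ.W, {z | (g z.1, z.2) ∈ c.O}, fun z => (c.p (g z.1, z.2)).prodMap (ξ.p z.1),
    fun z => (c.s (g z.1, z.2), σ z.1)⟩

/-- Extension by zero along an open embedding. -/
abbrev push (c : Raw U) (j : U → X) : Raw X :=
  ⟨c.V, c.W, Prod.map j id '' c.O, Function.extend (Prod.map j id) c.p 0,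
    Function.extend (Prod.map j id) c.s 0⟩

/-- Integration over a complex vector space. -/
abbrev pushV (E : FD) (c : Raw (X × E)) : Raw X :=
  ⟨E.prod c.V, c.W, {z | ((z.1, z.2.1), z.2.2) ∈ c.O}, fun z => c.p ((z.1, z.2.1), z.2.2),
    fun z => c.s ((z.1, z.2.1), z.2.2)⟩

/-- The product of the pull backs along `f` and `g`. -/
abbrev prod (a : Raw K) (c : Raw Y) (f : X → K) (g : X → Y) : Raw X :=
  ⟨a.V.prod c.V, a.W.prod c.W, {z | (f z.1, z.2.1) ∈ a.O ∧ (g z.1, z.2.2) ∈ c.O},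
    fun z => (a.p (f z.1, z.2.1)).prodMap (c.p (g z.1, z.2.2)),
    fun z => (a.s (f z.1, z.2.1), c.s (g z.1, z.2.2))⟩

/-- The set where the degree is `d`. -/
def deg (c : Raw X) (d : ℤ) : Set (X × c.V) := {z | z ∈ c.O ∧ (rk (c.p z) : ℤ) = d + c.V.dim}

abbrev part (c : Raw X) (d : ℤ) : Raw X := c.res (c.deg d)

/-- The cocycle itself, read as a cocycle on `X × V`. -/
abbrev lift (c : Raw X) : Raw (X × c.V) :=
  ⟨FD.zero, c.W, {z | z.1 ∈ c.O}, fun z => c.p z.1, fun z => c.s z.1⟩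

open Classical in
/-- The sum: the first cocycle sits in the right half plane, the second in the left one. -/
abbrev add (c c' : Raw X) : Raw X :=
  ⟨(c.V.prod c'.V).prod FD.C, ((c.W.prod c'.V).prod (c'.W.prod c.V)).prod FD.C,
    {z | (0 < z.2.2.re ∧ (z.1, z.2.1.1) ∈ c.O) ∨ (z.2.2.re < 0 ∧ (z.1, z.2.1.2) ∈ c'.O)},
    fun z => (if 0 < z.2.2.re then
        ((c.p (z.1, z.2.1.1)).prodMap (ContinuousLinearMap.id ℂ c'.V)).prodMap 0
      else (0 : _ →L[ℂ] _).prodMap
        ((c'.p (z.1, z.2.1.2)).prodMap (ContinuousLinearMap.id ℂ c.V))).prodMap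
          (ContinuousLinearMap.id ℂ ℂ),
    fun z => if 0 < z.2.2.re then (((c.s (z.1, z.2.1.1), z.2.1.2), 0), z.2.2 - 1)
      else ((0, (c'.s (z.1, z.2.1.2), z.2.1.1)), z.2.2 + 1)⟩

theorem good_empty [TopologicalSpace X] : (empty X).Good :=
  ⟨isOpen_empty, continuousOn_empty _, continuousOn_empty _, fun _ h => h.elim, fun _ h => h.elim,
    by
      have : (empty X).Z = ∅ := eq_empty_of_forall_notMem fun _ h => h.1
      rw [this]
      exact isCompact_empty⟩

end Raw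

variable {X X' U K Y : Type} [TopologicalSpace X] [TopologicalSpace X'] [TopologicalSpace U]
  [TopologicalSpace K] [TopologicalSpace Y]

/-- The elementary moves. -/
inductive Move {X : Type} [TopologicalSpace X] : Raw X → Raw X → Prop
  | germ (c : Raw X) (O : Set (X × c.V)) (p : X × c.V → c.W →L[ℂ] c.W) (s : X × c.V → c.W) :
      O ⊆ c.O → EqOn p c.p O → EqOn s c.s O → c.Z ⊆ O → Move c ⟨c.V, c.W, O, p, s⟩
  | htpy (C : Raw (X × unitInterval)) : C.Good →
      Move (C.pull fun x => (x, 0)) (C.pull fun x => (x, 1))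
  | stab (c : Raw X) (E : FD) : Move c (c.stab E)
  | viso (c : Raw X) (V' : FD) (e : V' ≃L[ℂ] c.V) : Move c (c.viso V' e)
  | wemb (c : Raw X) (W' : FD) (j : c.W →L[ℂ] W') (r : W' →L[ℂ] c.W) :
      r ∘L j = ContinuousLinearMap.id ℂ c.W → Move c (c.wemb W' j r)

/-- The cobordism group with compact supports (all even degrees together). -/
def h (X : Type) [TopologicalSpace X] : Type 1 :=
  Quot fun c c' : {c : Raw X // c.Good} => Move c.1 c'.1

open Classical in
/-- The class of a cocycle. -/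
def cls (c : Raw X) : h X :=
  if hc : c.Good then Quot.mk _ ⟨c, hc⟩ else Quot.mk _ ⟨Raw.empty X, Raw.good_empty⟩

/-- A representative. -/
def rep (x : h X) : Raw X := (Quot.out x).1

theorem rep_good (x : h X) : (rep x).Good := (Quot.out x).2

theorem cls_rep (x : h X) : cls (rep x) = x := by
  rw [cls, dif_pos (rep_good x)]
  exact Quot.out_eq x

theorem cls_move {c c' : Raw X} (hc : c.Good) (hc' : c'.Good) (m : Move c c') : cls c = cls c' := by
  rw [cls, cls, dif_pos hc, dif_pos hc']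
  exact Quot.sound m

theorem h_ind {P : h X → Prop} (H : ∀ c : Raw X, c.Good → P (cls c)) (x : h X) : P x :=
  cls_rep x ▸ H _ (rep_good x)

/-- A function that is invariant under the moves only depends on the class. -/
theorem cls_lift {β : Sort*} (F : Raw X → β)
    (H : ∀ c c' : Raw X, c.Good → c'.Good → Move c c' → F c = F c') {c c' : Raw X} (hc : c.Good)
    (hc' : c'.Good) (e : cls c = cls c') : F c = F c' := by
  rw [cls, cls, dif_pos hc, dif_pos hc'] at e
  exact congrArg (Quot.lift (fun a : {c : Raw X // c.Good} => F a.1)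
    fun a b m => H _ _ a.2 b.2 m) e

theorem rep_lift {β : Sort*} (F : Raw X → β)
    (H : ∀ c c' : Raw X, c.Good → c'.Good → Move c c' → F c = F c') {c : Raw X} (hc : c.Good) :
    F (rep (cls c)) = F c :=
  cls_lift F H (rep_good _) hc (cls_rep _)

def zero0 (X : Type) [TopologicalSpace X] : h X := cls (Raw.empty X)
def add0 (x y : h X) : h X := cls ((rep x).add (rep y))
def pull0 (f : X' → X) (x : h X) : h X' := cls ((rep x).pull f)
def push0 (j : U → X) (x : h U) : h X := cls ((rep x).push j)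
def pushV0 (E : FD) (x : h (X × E)) : h X := cls ((rep x).pushV E)
def twist0 (g : X' → X) (ξ : Bun X') (σ : X' → ξ.W) (x : h X) : h X' := cls ((rep x).twist g ξ σ)
def prod0 (f : X → K) (g : X → Y) (a : h K) (y : h Y) : h X := cls ((rep a).prod (rep y) f g)
def part0 (d : ℤ) (x : h X) : h X := cls ((rep x).part d)
def neg0 (x : h X) : h X := prod0 (fun _ => ()) id (cls Raw.eps) x

/-- `σ` is a section of `ξ` and `g` is proper on its zero set. -/
def Tw (g : C(X', X)) (ξ : Bun X') (σ : C(X', ξ.W)) : Prop :=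
  (∀ x, ξ.p x (σ x) = σ x) ∧ IsProperMap fun x : {x // σ x = 0} => g x.1

/-- The pair of maps is proper. -/
def Pr (f : C(X, K)) (g : C(X, Y)) : Prop := IsProperMap fun x => (f x, g x)

/-! ### Statements on cocycles -/

/-- The operations preserve cocycles, first part. -/
structure S_good1 : Prop where
  res : ∀ {X : Type} [TopologicalSpace X] {c : Raw X} {G : Set (X × c.V)}, c.Good → IsOpen G →
    IsCompact (c.Z ∩ G) → (c.res G).Good
  res' : ∀ {X : Type} [TopologicalSpace X] {c : Raw X} {G G' : Set (X × c.V)}, c.Good → IsOpen G →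
    IsOpen G' → Disjoint G G' → c.Z ⊆ G ∪ G' → (c.res G).Good
  pull : ∀ {X X' : Type} [TopologicalSpace X] [TopologicalSpace X'] {c : Raw X} {f : X' → X},
    c.Good → IsProperMap f → (c.pull f).Good
  pullO : ∀ {X U : Type} [TopologicalSpace X] [TopologicalSpace U] {c : Raw X} {j : U → X},
    c.Good → IsEmbedding j → (∀ z ∈ c.Z, z.1 ∈ range j) → (c.pull j).Good
  stab : ∀ {X : Type} [TopologicalSpace X] {c : Raw X} (E : FD), c.Good → (c.stab E).Good
  viso : ∀ {X : Type} [TopologicalSpace X] {c : Raw X} (V' : FD) (e : V' ≃L[ℂ] c.V), c.Good →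
    (c.viso V' e).Good
  wemb : ∀ {X : Type} [TopologicalSpace X] {c : Raw X} (W' : FD) (j : c.W →L[ℂ] W')
    (r : W' →L[ℂ] c.W), r ∘L j = ContinuousLinearMap.id ℂ c.W → c.Good → (c.wemb W' j r).Good
  one : ∀ (K : Type) [TopologicalSpace K] [CompactSpace K], (Raw.one K).Good
  eps : Raw.eps.Good
  lift : ∀ {X : Type} [TopologicalSpace X] {c : Raw X}, c.Good → c.lift.Good
  pushV : ∀ {X : Type} [TopologicalSpace X] (E : FD) {c : Raw (X × E)}, c.Good → (c.pushV E).Good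

/-- The operations preserve cocycles, second part. -/
structure S_good2 : Prop where
  twist : ∀ {X X' : Type} [TopologicalSpace X] [TopologicalSpace X'] {c : Raw X} {g : C(X', X)}
    {ξ : Bun X'} {σ : C(X', ξ.W)}, c.Good → Tw g ξ σ → (c.twist g ξ σ).Good
  push : ∀ {X U : Type} [TopologicalSpace X] [TopologicalSpace U] {c : Raw U} {j : U → X},
    c.Good → IsOpenEmbedding j → (c.push j).Good
  prod : ∀ {X K Y : Type} [TopologicalSpace X] [TopologicalSpace K] [TopologicalSpace Y]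
    {a : Raw K} {c : Raw Y} {f : C(X, K)} {g : C(X, Y)}, a.Good → c.Good → Pr f g →
    (a.prod c f g).Good
  add : ∀ {X : Type} [TopologicalSpace X] {c c' : Raw X}, c.Good → c'.Good → (c.add c').Good
  rk_near : ∀ {W : FD} (p : W →L[ℂ] W), p ∘L p = p →
    ∀ᶠ q in 𝓝 p, q ∘L q = q → rk q = rk p
  rk_sum : ∀ {W W' : FD} (p : W →L[ℂ] W) (q : W' →L[ℂ] W'),
    rk (W := W.prod W') (p.prodMap q) = rk p + rk q
  rk_iso : ∀ {W W' : FD} (p : W →L[ℂ] W) (q : W' →L[ℂ] W') (u : W →L[ℂ] W') (v : W' →L[ℂ] W),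
    p ∘L p = p → q ∘L q = q → v ∘L u = p → u ∘L v = q → rk p = rk q
  deg : ∀ {X : Type} [TopologicalSpace X] {c : Raw X} (d : ℤ), c.Good →
    IsOpen (c.deg d) ∧ IsOpen (c.O \ c.deg d) ∧ (c.part d).Good

/-- Isomorphic germs have the same class. -/
def S_eqv : Prop :=
  ∀ {X : Type} [TopologicalSpace X] (c c' : Raw X) (e : c'.V ≃L[ℂ] c.V) (G : Set (X × c'.V))
    (u : X × c'.V → c.W →L[ℂ] c'.W) (v : X × c'.V → c'.W →L[ℂ] c.W), c.Good → c'.Good → IsOpen G →
    c'.Z ⊆ G → (∀ z : X × c'.V, (z.1, e z.2) ∈ c.Z → z ∈ G) → ContinuousOn u G →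
    ContinuousOn v G → (∀ z ∈ G, z ∈ c'.O ∧ (z.1, e z.2) ∈ c.O ∧
      v z ∘L u z = c.p (z.1, e z.2) ∧ u z ∘L v z = c'.p z ∧ u z (c.s (z.1, e z.2)) = c'.s z) →
    cls c = cls c'

def S_empty : Prop :=
  ∀ {X : Type} [TopologicalSpace X] (c : Raw X), c.Good → c.Z = ∅ → cls c = zero0 X

def S_add : Prop :=
  ∀ {X : Type} [TopologicalSpace X] (c c' : Raw X), c.Good → c'.Good →
    add0 (cls c) (cls c') = cls (c.add c') ∧ cls (c.add c') = cls (c'.add c)

def S_split : Prop :=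
  ∀ {X : Type} [TopologicalSpace X] (c : Raw X) (G G' : Set (X × c.V)), c.Good → IsOpen G →
    IsOpen G' → Disjoint G G' → c.Z ⊆ G ∪ G' → cls c = cls ((c.res G).add (c.res G'))

/-- The two halves of a sum. -/
def S_half : Prop :=
  ∀ {X : Type} [TopologicalSpace X] (c c' : Raw X) (G : Set (X × c.V)), c.Good → c'.Good →
    IsOpen G → IsCompact (c.Z ∩ G) →
    cls ((c.add c').res {z | 0 < z.2.2.re ∧ (z.1, z.2.1.1) ∈ G}) = cls (c.res G) ∧
      cls ((c'.add c).res {z | z.2.2.re < 0 ∧ (z.1, z.2.1.2) ∈ G}) = cls (c.res G)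

/-- The sum rule and joint representatives. -/
def S_sum : Prop :=
  ∀ {X : Type} [TopologicalSpace X],
    (∀ (c : Raw X) (G G' : Set (X × c.V)), c.Good → IsOpen G → IsOpen G' → Disjoint G G' →
      c.Z ⊆ G ∪ G' → cls c = add0 (cls (c.res G)) (cls (c.res G'))) ∧
    (∀ x y : h X, ∃ (c : Raw X) (G G' : Set (X × c.V)), c.Good ∧ IsOpen G ∧ IsOpen G' ∧
      Disjoint G G' ∧ c.Z ⊆ G ∪ G' ∧ cls (c.res G) = x ∧ cls (c.res G') = y) ∧
    (∀ x y z : h X, add0 (add0 x y) z = add0 x (add0 y z)) ∧ (∀ x y : h X, add0 x y = add0 y x) ∧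
    ∀ x : h X, add0 (zero0 X) x = x

def S_eps : Prop := add0 (cls Raw.eps) (cls (Raw.one Unit)) = zero0 Unit

def S_pull : Prop :=
  ∀ {X X' : Type} [TopologicalSpace X] [TopologicalSpace X'] (f : X' → X), IsProperMap f →
    (∀ c : Raw X, c.Good → pull0 f (cls c) = cls (c.pull f)) ∧
      ∀ x y, pull0 f (add0 x y) = add0 (pull0 f x) (pull0 f y)

def S_push : Prop :=
  ∀ {X U : Type} [TopologicalSpace X] [TopologicalSpace U] (j : U → X), IsOpenEmbedding j →
    (∀ c : Raw U, c.Good → push0 j (cls c) = cls (c.push j)) ∧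
      ∀ x y, push0 j (add0 x y) = add0 (push0 j x) (push0 j y)

def S_pushV : Prop :=
  ∀ {X : Type} [TopologicalSpace X] (E : FD),
    (∀ c : Raw (X × E), c.Good → pushV0 E (cls c) = cls (c.pushV E)) ∧
      ∀ x y : h (X × E), pushV0 E (add0 x y) = add0 (pushV0 E x) (pushV0 E y)

def S_twist : Prop :=
  ∀ {X X' : Type} [TopologicalSpace X] [TopologicalSpace X'] (g : C(X', X)) (ξ : Bun X')
    (σ : C(X', ξ.W)), Tw g ξ σ →
    (∀ c : Raw X, c.Good → twist0 g ξ σ (cls c) = cls (c.twist g ξ σ)) ∧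
      ∀ x y, twist0 g ξ σ (add0 x y) = add0 (twist0 g ξ σ x) (twist0 g ξ σ y)

def S_prod : Prop :=
  ∀ {X K Y : Type} [TopologicalSpace X] [TopologicalSpace K] [TopologicalSpace Y] (f : C(X, K))
    (g : C(X, Y)), Pr f g →
    (∀ (a : Raw K) (c : Raw Y), a.Good → c.Good →
      prod0 f g (cls a) (cls c) = cls (a.prod c f g)) ∧
    (∀ a y, prod0 f g a y = prod0 g f y a) ∧
    (∀ a b y, prod0 f g (add0 a b) y = add0 (prod0 f g a y) (prod0 f g b y)) ∧
    ∀ a x y, prod0 f g a (add0 x y) = add0 (prod0 f g a x) (prod0 f g a y)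

def S_part : Prop :=
  ∀ {X : Type} [TopologicalSpace X] (d : ℤ),
    (∀ c : Raw X, c.Good → part0 d (cls c) = cls (c.part d)) ∧
      ∀ x y : h X, part0 d (add0 x y) = add0 (part0 d x) (part0 d y)

/-- Associativity and the unit of the product, and negatives. -/
structure S_laws : Prop where
  assoc : ∀ {X Y Y' A B C : Type} [TopologicalSpace X] [TopologicalSpace Y] [TopologicalSpace Y']
    [TopologicalSpace A] [TopologicalSpace B] [TopologicalSpace C] (f' : C(X, Y')) (f₁ : C(Y', A))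
    (f₂ : C(Y', B)) (g : C(X, Y)) (g₁ : C(Y, B)) (g₂ : C(Y, C)) (f : C(X, A)) (k : C(X, C)),
    (∀ x, f₁ (f' x) = f x) → (∀ x, f₂ (f' x) = g₁ (g x)) → (∀ x, g₂ (g x) = k x) → Pr f' k →
    Pr f₁ f₂ → Pr f g → Pr g₁ g₂ →
    ∀ a b c, prod0 f' k (prod0 f₁ f₂ a b) c = prod0 f g a (prod0 g₁ g₂ b c)
  one : ∀ {X K : Type} [TopologicalSpace X] [TopologicalSpace K] [CompactSpace K] [T2Space K]
    (f : C(X, K)) (x : h X), prod0 f id (cls (Raw.one K)) x = x
  neg : ∀ {X : Type} [TopologicalSpace X] (x : h X), add0 (neg0 x) x = zero0 X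

/-- Everything that is needed to set up the groups, rings and maps. -/
structure Core : Prop where
  good1 : S_good1
  good2 : S_good2
  eqv : S_eqv
  empty : S_empty
  sum : S_sum
  eps : S_eps
  pull : S_pull
  push : S_push
  pushV : S_pushV
  twist : S_twist
  prod : S_prod
  part : S_part
  laws : S_laws

/-- Mayer-Vietoris property for a closed embedding `i` and an open embedding `j` that cover. -/
def S_MV0 : Prop :=
  ∀ {N M G T : Type} [TopologicalSpace N] [TopologicalSpace M] [TopologicalSpace G]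
    [TopologicalSpace T] [T2Space N] [LocallyCompactSpace N] (i : M → N) (j : G → N) (k : T → M)
    (l : T → G), IsClosedEmbedding i → IsOpenEmbedding j → IsOpenEmbedding k →
    IsClosedEmbedding l → range i ∪ range j = univ → (∀ t, i (k t) = j (l t)) →
    (∀ m, i m ∈ range j → m ∈ range k) → ∀ (c : Raw N) (y : Raw T), c.Good → y.Good →
    cls (c.pull i) = cls (y.push k) →
    ∃ c' : Raw G, c'.Good ∧ cls (c'.push j) = cls c ∧ cls (c'.pull l) = cls y

end

end Pool.Agent.MP_826def_gt.MU
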